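import Mathlib

/-!
# Arithmetic of binomial coefficients
-/

namespace Pool.Agent.R76.Mader

open Finset

theorem choose_succ_eq (r m : ℕ) (hr : 1 ≤ r) :
    (m + 1).choose r = m.choose (r - 1) + m.choose r := by
  obtain ⟨s, rfl⟩ : ∃ s, r = s + 1 := ⟨r - 1, by omega⟩
  rw [Nat.choose_succ_succ]; simp

/-- `C(b,r) k ≤ b C(k,r)` for `b ≤ k`, `r ≥ 1`. -/
theorem choose_mul_le {r b k : ℕ} (hr : 1 ≤ r) (h : b ≤ k) :
    b.choose r * k ≤ b * k.choose r := by
  obtain ⟨s, rfl⟩ : ∃ s, r = s + 1 := ⟨r - 1, by omega⟩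
  rcases Nat.eq_zero_or_pos b with rfl | hb
  · simp
  obtain ⟨b', rfl⟩ : ∃ b', b = b' + 1 := ⟨b - 1, by omega⟩
  obtain ⟨k', rfl⟩ : ∃ k', k = k' + 1 := ⟨k - 1, by omega⟩
  have h1 := Nat.add_one_mul_choose_eq b' s
  have h2 := Nat.add_one_mul_choose_eq k' s
  have h3 : b'.choose s ≤ k'.choose s := Nat.choose_le_choose s (by omega)
  have h4 : (s + 1) * ((b' + 1).choose (s + 1) * (k' + 1)) ≤
      (s + 1) * ((b' + 1) * (k' + 1).choose (s + 1)) := by
    calc (s + 1) * ((b' + 1).choose (s + 1) * (k' + 1))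
        = (k' + 1) * ((b' + 1).choose (s + 1) * (s + 1)) := by ring
      _ = (k' + 1) * ((b' + 1) * b'.choose s) := by rw [← h1]
      _ ≤ (k' + 1) * ((b' + 1) * k'.choose s) := by gcongr
      _ = (b' + 1) * ((k' + 1) * k'.choose s) := by ring
      _ = (b' + 1) * ((k' + 1).choose (s + 1) * (s + 1)) := by rw [h2]
      _ = (s + 1) * ((b' + 1) * (k' + 1).choose (s + 1)) := by ring
  exact Nat.le_of_mul_le_mul_left h4 (by omega)

/-- `descFactorial b r * k^r ≤ b^r * descFactorial k r` for `b ≤ k`. -/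
theorem desc_mul_pow_le (r : ℕ) {b k : ℕ} (h : b ≤ k) :
    b.descFactorial r * k ^ r ≤ b ^ r * k.descFactorial r := by
  induction r with
  | zero => simp
  | succ r ih =>
    rw [Nat.descFactorial_succ, Nat.descFactorial_succ, pow_succ, pow_succ]
    have h1 : (b - r) * k ≤ b * (k - r) := by
      rcases le_total b r with h2 | h2
      · rw [Nat.sub_eq_zero_of_le h2]; simp
      · rw [Nat.sub_mul, Nat.mul_sub]
        have : r * k ≥ b * r := by nlinarith
        omega
    calc (b - r) * b.descFactorial r * (k ^ r * k)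
        = ((b - r) * k) * (b.descFactorial r * k ^ r) := by ring
      _ ≤ (b * (k - r)) * (b ^ r * k.descFactorial r) := Nat.mul_le_mul h1 ih
      _ = b ^ r * b * ((k - r) * k.descFactorial r) := by ring

theorem choose_mul_pow_le (r : ℕ) {b k : ℕ} (h : b ≤ k) :
    b.choose r * k ^ r ≤ b ^ r * k.choose r := by
  have h1 := desc_mul_pow_le r h
  rw [Nat.descFactorial_eq_factorial_mul_choose, Nat.descFactorial_eq_factorial_mul_choose] at h1
  have h2 : r.factorial * (b.choose r * k ^ r) ≤ r.factorial * (b ^ r * k.choose r) := by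
    calc r.factorial * (b.choose r * k ^ r) = r.factorial * b.choose r * k ^ r := by ring
      _ ≤ _ := h1
      _ = _ := by ring
  exact Nat.le_of_mul_le_mul_left h2 (Nat.factorial_pos r)

/-- `2^s C(m,s) ≤ C(n,s)` whenever `2m ≤ n`. -/
theorem two_pow_choose_le (s : ℕ) {m n : ℕ} (h : 2 * m ≤ n) :
    2 ^ s * m.choose s ≤ n.choose s := by
  have h1 : 2 ^ s * m.descFactorial s ≤ n.descFactorial s := by
    induction s with
    | zero => simp
    | succ s ih =>
      rw [Nat.descFactorial_succ, Nat.descFactorial_succ, pow_succ]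
      have h2 : 2 * (m - s) ≤ n - s := by omega
      calc 2 ^ s * 2 * ((m - s) * m.descFactorial s)
          = (2 * (m - s)) * (2 ^ s * m.descFactorial s) := by ring
        _ ≤ (n - s) * n.descFactorial s := Nat.mul_le_mul h2 ih
  rw [Nat.descFactorial_eq_factorial_mul_choose, Nat.descFactorial_eq_factorial_mul_choose] at h1
  have h2 : s.factorial * (2 ^ s * m.choose s) ≤ s.factorial * n.choose s := by
    calc s.factorial * (2 ^ s * m.choose s) = 2 ^ s * (s.factorial * m.choose s) := by ring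
      _ ≤ _ := h1
  exact Nat.le_of_mul_le_mul_left h2 (Nat.factorial_pos s)

/-- Supermodularity of `C(·,r)`. -/
theorem choose_supermod {r : ℕ} (hr : 1 ≤ r) (p q t : ℕ) :
    (p + q).choose r + (q + t).choose r ≤ (p + q + t).choose r + q.choose r := by
  induction t with
  | zero => simp
  | succ t ih =>
    have h1 := choose_succ_eq r (q + t) hr
    have h2 := choose_succ_eq r (p + q + t) hr
    have h3 : (q + t).choose (r - 1) ≤ (p + q + t).choose (r - 1) :=
      Nat.choose_le_choose _ (by omega)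
    have e1 : q + (t + 1) = q + t + 1 := by ring
    have e2 : p + q + (t + 1) = p + q + t + 1 := by ring
    rw [e1, e2, h1, h2]
    omega

/-- `(2^r - 1) b^r + a^r ≤ (a+b)^r` for `0 ≤ b ≤ a`. -/
theorem pow_add_ge (r : ℕ) {a b : ℝ} (hb : 0 ≤ b) (hab : b ≤ a) :
    (2 ^ r - 1) * b ^ r + a ^ r ≤ (a + b) ^ r := by
  induction r with
  | zero => simp
  | succ r ih =>
    have ha : 0 ≤ a := hb.trans hab
    have h1 : (0 : ℝ) ≤ 2 ^ r - 1 := by
      have : (1 : ℝ) ≤ 2 ^ r := one_le_pow₀ (by norm_num)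
      linarith
    have h2 : b ^ r ≤ a ^ r := pow_le_pow_left₀ hb hab r
    have h3 : 0 ≤ b ^ r := pow_nonneg hb r
    have h4 : (a + b) * ((2 ^ r - 1) * b ^ r + a ^ r) ≤ (a + b) * (a + b) ^ r :=
      mul_le_mul_of_nonneg_left ih (by linarith)
    have h5 : b * b ^ r ≤ b * a ^ r := mul_le_mul_of_nonneg_left h2 hb
    have h6 : (2 ^ r - 1) * b ^ r * b ≤ (2 ^ r - 1) * b ^ r * a :=
      mul_le_mul_of_nonneg_left hab (mul_nonneg h1 h3)
    rw [pow_succ, pow_succ, pow_succ, pow_succ]
    nlinarith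

/-- The chord bound `x^r - 1 ≤ (2^r - 1)(x - 1)` for `1 ≤ x ≤ 2`. -/
theorem chord (r : ℕ) {x : ℝ} (h1 : 1 ≤ x) (h2 : x ≤ 2) :
    x ^ r - 1 ≤ (2 ^ r - 1) * (x - 1) := by
  induction r with
  | zero => simp
  | succ r ih =>
    have h3 : (0 : ℝ) ≤ 2 ^ r - 1 := by
      have : (1 : ℝ) ≤ 2 ^ r := one_le_pow₀ (by norm_num)
      linarith
    have h4 : x * (x ^ r - 1) ≤ x * ((2 ^ r - 1) * (x - 1)) :=
      mul_le_mul_of_nonneg_left ih (by linarith)
    have h5 : x * ((2 ^ r - 1) * (x - 1)) ≤ 2 * ((2 ^ r - 1) * (x - 1)) :=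
      mul_le_mul_of_nonneg_right h2 (mul_nonneg h3 (by linarith))
    rw [pow_succ, pow_succ]
    nlinarith

/-- `2^r - (1+t)^r ≥ (1-t)(2^r - 1 + t (2^r - r - 1))` for `0 ≤ t ≤ 1`. -/
theorem two_pow_sub (r : ℕ) {t : ℝ} (h0 : 0 ≤ t) (h1 : t ≤ 1) :
    (1 - t) * (2 ^ r - 1 + t * (2 ^ r - r - 1)) ≤ 2 ^ r - (1 + t) ^ r := by
  induction r with
  | zero => simp
  | succ r ih =>
    have hB : 1 + (r : ℝ) * t ≤ (1 + t) ^ r := one_add_mul_le_pow (by linarith) r
    have h3 : (1 - t) * (1 + (r : ℝ) * t) ≤ (1 - t) * (1 + t) ^ r :=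
      mul_le_mul_of_nonneg_left hB (by linarith)
    rw [pow_succ, pow_succ]
    push_cast
    nlinarith

/-- If `1 + 2^{-r} ≤ x ≤ 2` and `r ≥ 3` then `2 x^r + 2(2^r-1) ≤ (2(2^r-1)+1) x`. -/
theorem secant {r : ℕ} (hr : 3 ≤ r) {x : ℝ} (h1 : 1 ≤ (x - 1) * 2 ^ r) (h2 : x ≤ 2) :
    2 * x ^ r + 2 * (2 ^ r - 1) ≤ (2 * (2 ^ r - 1) + 1) * x := by
  have hp : (0 : ℝ) < 2 ^ r := by positivity
  have hx : 0 ≤ x - 1 := by
    by_contra h
    push Not at h
    have := mul_neg_of_neg_of_pos h hp
    linarith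
  have h3 := two_pow_sub r hx (by linarith : x - 1 ≤ 1)
  have e1 : (1 : ℝ) + (x - 1) = x := by ring
  rw [e1] at h3
  -- 2(r+1) ≤ 2^r
  have h4 : ∀ n : ℕ, 3 ≤ n → 2 * (n + 1) ≤ 2 ^ n := by
    intro n hn
    induction n, hn using Nat.le_induction with
    | base => norm_num
    | succ n hn ih => rw [pow_succ]; omega
  have h5 : (2 : ℝ) * (r + 1) ≤ 2 ^ r := by exact_mod_cast h4 r hr
  -- 2 (x-1)(2^r - r - 1) ≥ 1
  have h6 : 1 ≤ 2 * ((x - 1) * (2 ^ r - r - 1)) := by
    have : (2 : ℝ) ^ r ≤ 2 * (2 ^ r - r - 1) := by linarith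
    calc (1 : ℝ) ≤ (x - 1) * 2 ^ r := h1
      _ ≤ (x - 1) * (2 * (2 ^ r - r - 1)) := mul_le_mul_of_nonneg_left this hx
      _ = _ := by ring
  have h7 : 0 ≤ 2 - x := by linarith
  have h8 : (2 - x) * 1 ≤ (2 - x) * (2 * ((x - 1) * (2 ^ r - r - 1))) :=
    mul_le_mul_of_nonneg_left h6 h7
  nlinarith

/-- Difference of numbers of crossing sets. -/
theorem cross_diff {r : ℕ} (hr : 1 ≤ r) (y z : ℕ) :
    ∀ n a b : ℕ, a + b = n → y ≤ a → z ≤ b →
      ((2 : ℤ) ^ (r - 1) - 1) *
          min ((a.choose r : ℤ) - y.choose r) ((b.choose r : ℤ) - z.choose r) ≤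
        (((a + b).choose r : ℤ) - a.choose r - b.choose r) -
          (((y + z).choose r : ℤ) - y.choose r - z.choose r) := by
  have hL : (0 : ℤ) ≤ 2 ^ (r - 1) - 1 := by
    have : (1 : ℤ) ≤ 2 ^ (r - 1) := one_le_pow₀ (by norm_num)
    linarith
  -- monotonicity of crossing numbers
  have hmono : ∀ y z a b : ℕ, y ≤ a → z ≤ b →
      (((y + z).choose r : ℤ) - y.choose r - z.choose r) ≤
        (((a + b).choose r : ℤ) - a.choose r - b.choose r) := by
    intro y z a b hya hzb
    obtain ⟨p, rfl⟩ := Nat.exists_eq_add_of_le hya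
    obtain ⟨q, rfl⟩ := Nat.exists_eq_add_of_le hzb
    have h1 := choose_supermod hr z y p
    have h2 := choose_supermod hr (y + p) z q
    have e1 : z + y = y + z := by ring
    have e2 : z + y + p = y + p + z := by ring
    have e3 : y + p + z + q = y + p + (z + q) := by ring
    rw [e1] at h1
    have e4 : y + z + p = y + p + z := by ring
    rw [e4] at h1
    rw [e3] at h2
    have h1' : ((y + z).choose r : ℤ) + (y + p).choose r ≤ (y + p + z).choose r + y.choose r := by
      exact_mod_cast h1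
    have h2' : ((y + p + z).choose r : ℤ) + (z + q).choose r ≤
        (y + p + (z + q)).choose r + z.choose r := by exact_mod_cast h2
    linarith
  intro n
  induction n with
  | zero =>
    intro a b hab hya hzb
    obtain ⟨rfl, rfl⟩ : a = 0 ∧ b = 0 := by omega
    obtain rfl : y = 0 := by omega
    obtain rfl : z = 0 := by omega
    simp
  | succ n ih =>
    intro a b hab hya hzb
    rcases Nat.eq_or_lt_of_le hya with rfl | hya'
    · have h1 := hmono y z y b le_rfl hzb
      have h2 : min ((y.choose r : ℤ) - y.choose r) ((b.choose r : ℤ) - z.choose r) ≤ 0 := by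
        refine (min_le_left _ _).trans (by simp)
      have h3 := mul_le_mul_of_nonneg_left h2 hL
      linarith
    rcases Nat.eq_or_lt_of_le hzb with rfl | hzb'
    · have h1 := hmono y z a z hya le_rfl
      have h2 : min ((a.choose r : ℤ) - y.choose r) ((z.choose r : ℤ) - z.choose r) ≤ 0 := by
        refine (min_le_right _ _).trans (by simp)
      have h3 := mul_le_mul_of_nonneg_left h2 hL
      linarith
    rcases le_total b a with hba | hba
    · -- decrease b
      obtain ⟨b', rfl⟩ : ∃ b', b = b' + 1 := ⟨b - 1, by omega⟩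
      have h1 := ih a b' (by omega) hya (by omega)
      have h2 := choose_succ_eq r b' hr
      have h3 := choose_succ_eq r (a + b') hr
      have h4 := two_pow_choose_le (r - 1) (m := b') (n := a + b') (by omega)
      have e1 : a + (b' + 1) = a + b' + 1 := by ring
      rw [e1]
      have h2' : ((b' + 1).choose r : ℤ) = b'.choose (r - 1) + b'.choose r := by exact_mod_cast h2
      have h3' : ((a + b' + 1).choose r : ℤ) = (a + b').choose (r - 1) + (a + b').choose r := by
        exact_mod_cast h3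
      have h4' : (2 : ℤ) ^ (r - 1) * b'.choose (r - 1) ≤ (a + b').choose (r - 1) := by
        exact_mod_cast h4
      rw [h2', h3']
      have hc : (0 : ℤ) ≤ b'.choose (r - 1) := by positivity
      have h5 : min ((a.choose r : ℤ) - y.choose r)
            ((b'.choose (r - 1) + b'.choose r : ℤ) - z.choose r) ≤
          min ((a.choose r : ℤ) - y.choose r) ((b'.choose r : ℤ) - z.choose r) +
            b'.choose (r - 1) := by
        rcases min_cases ((a.choose r : ℤ) - y.choose r) ((b'.choose r : ℤ) - z.choose r) with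
          ⟨h, _⟩ | ⟨h, _⟩
        · rw [h]; exact (min_le_left _ _).trans (by linarith)
        · rw [h]; exact (min_le_right _ _).trans (by linarith)
      have h6 := mul_le_mul_of_nonneg_left h5 hL
      linarith
    · -- decrease a
      obtain ⟨a', rfl⟩ : ∃ a', a = a' + 1 := ⟨a - 1, by omega⟩
      have h1 := ih a' b (by omega) (by omega) hzb
      have h2 := choose_succ_eq r a' hr
      have h3 := choose_succ_eq r (a' + b) hr
      have h4 := two_pow_choose_le (r - 1) (m := a') (n := a' + b) (by omega)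
      have e1 : a' + 1 + b = a' + b + 1 := by ring
      rw [e1]
      have h2' : ((a' + 1).choose r : ℤ) = a'.choose (r - 1) + a'.choose r := by exact_mod_cast h2
      have h3' : ((a' + b + 1).choose r : ℤ) = (a' + b).choose (r - 1) + (a' + b).choose r := by
        exact_mod_cast h3
      have h4' : (2 : ℤ) ^ (r - 1) * a'.choose (r - 1) ≤ (a' + b).choose (r - 1) := by
        exact_mod_cast h4
      rw [h2', h3']
      have hc : (0 : ℤ) ≤ a'.choose (r - 1) := by positivity
      have h5 : min ((a'.choose (r - 1) + a'.choose r : ℤ) - y.choose r)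
            ((b.choose r : ℤ) - z.choose r) ≤
          min ((a'.choose r : ℤ) - y.choose r) ((b.choose r : ℤ) - z.choose r) +
            a'.choose (r - 1) := by
        rcases min_cases ((a'.choose r : ℤ) - y.choose r) ((b.choose r : ℤ) - z.choose r) with
          ⟨h, _⟩ | ⟨h, _⟩
        · rw [h]; exact (min_le_left _ _).trans (by linarith)
        · rw [h]; exact (min_le_right _ _).trans (by linarith)
      have h6 := mul_le_mul_of_nonneg_left h5 hL
      linarith

end Pool.Agent.R76.Mader
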