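import Mathlib
import Pool.Agent.R76.Mader.Arith

/-!
# More arithmetic of binomial coefficients
-/

namespace Pool.Agent.R76.Mader

/-- For `2 ≤ s ≤ r-1` and `d 2^r ≤ q`: `(s+1) (q+d)_s ≤ 2^s (q)_s`. -/
theorem desc_ratio {r q d : ℕ} (hr : 3 ≤ r) (hd : 1 ≤ d) (h : d * 2 ^ r ≤ q) :
    ∀ s : ℕ, 2 ≤ s → s ≤ r - 1 →
      (s + 1) * (q + d).descFactorial s ≤ 2 ^ s * q.descFactorial s := by
  have h8 : 8 ≤ 2 ^ r := by
    calc 8 = 2 ^ 3 := by norm_num
      _ ≤ 2 ^ r := Nat.pow_le_pow_right (by norm_num) hr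
  have h8d : 8 * d ≤ q := by nlinarith
  have hrq : 2 * r ≤ q := by
    have : ∀ n : ℕ, 3 ≤ n → 2 * n ≤ 2 ^ n := by
      intro n hn
      induction n, hn using Nat.le_induction with
      | base => norm_num
      | succ n hn ih => rw [pow_succ]; omega
    have h1 := this r hr
    nlinarith
  intro s hs
  induction s, hs using Nat.le_induction with
  | base =>
    intro _
    obtain ⟨q', rfl⟩ : ∃ q', q = q' + 2 := ⟨q - 2, by omega⟩
    have e1 : (q' + 2 + d).descFactorial 2 = (q' + 2 + d - 1) * (q' + 2 + d) := by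
      rw [Nat.descFactorial_succ, Nat.descFactorial_succ, Nat.descFactorial_zero]
      simp
    have e2 : (q' + 2).descFactorial 2 = (q' + 2 - 1) * (q' + 2) := by
      rw [Nat.descFactorial_succ, Nat.descFactorial_succ, Nat.descFactorial_zero]
      simp
    rw [e1, e2]
    have e3 : q' + 2 + d - 1 = q' + 1 + d := by omega
    have e4 : q' + 2 - 1 = q' + 1 := by omega
    rw [e3, e4]
    nlinarith
  | succ s hs ih =>
    intro hsr
    have ih' := ih (by omega)
    rw [Nat.descFactorial_succ, Nat.descFactorial_succ, pow_succ]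
    obtain ⟨w, hw⟩ : ∃ w, q = s + w := ⟨q - s, by omega⟩
    have e1 : q + d - s = w + d := by omega
    have e2 : q - s = w := by omega
    rw [e1, e2]
    have h2d : 2 * d ≤ w := by omega
    have h3 : (s + 2) * (w + d) ≤ 2 * (s + 1) * w := by nlinarith
    have h4 : (s + 1) * ((s + 1 + 1) * ((w + d) * (q + d).descFactorial s)) ≤
        (s + 1) * (2 ^ s * 2 * (w * q.descFactorial s)) := by
      calc (s + 1) * ((s + 1 + 1) * ((w + d) * (q + d).descFactorial s))
          = ((s + 2) * (w + d)) * ((s + 1) * (q + d).descFactorial s) := by ring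
        _ ≤ (2 * (s + 1) * w) * (2 ^ s * q.descFactorial s) := Nat.mul_le_mul h3 ih'
        _ = (s + 1) * (2 ^ s * 2 * (w * q.descFactorial s)) := by ring
    exact Nat.le_of_mul_le_mul_left h4 (by omega)

theorem choose_ratio {r q d : ℕ} (hr : 3 ≤ r) (hd : 1 ≤ d) (h : d * 2 ^ r ≤ q) :
    r * (q + d).choose (r - 1) ≤ 2 ^ (r - 1) * q.choose (r - 1) := by
  have h1 := desc_ratio hr hd h (r - 1) (by omega) le_rfl
  rw [Nat.descFactorial_eq_factorial_mul_choose, Nat.descFactorial_eq_factorial_mul_choose] at h1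
  have e : r - 1 + 1 = r := by omega
  rw [e] at h1
  have h2 : (r - 1).factorial * (r * (q + d).choose (r - 1)) ≤
      (r - 1).factorial * (2 ^ (r - 1) * q.choose (r - 1)) := by
    calc (r - 1).factorial * (r * (q + d).choose (r - 1))
        = r * ((r - 1).factorial * (q + d).choose (r - 1)) := by ring
      _ ≤ _ := h1
      _ = _ := by ring
  exact Nat.le_of_mul_le_mul_left h2 (Nat.factorial_pos _)

theorem choose_add_le {r : ℕ} (hr : 1 ≤ r) (k d : ℕ) :
    (k + d).choose r ≤ k.choose r + d * (k + d - 1).choose (r - 1) := by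
  induction d with
  | zero => simp
  | succ d ih =>
    have h1 := choose_succ_eq r (k + d) hr
    have e1 : k + (d + 1) = k + d + 1 := by ring
    have e2 : k + d + 1 - 1 = k + d := by omega
    rw [e1, e2, h1]
    have h2 : (k + d - 1).choose (r - 1) ≤ (k + d).choose (r - 1) :=
      Nat.choose_le_choose _ (by omega)
    have h3 : d * (k + d - 1).choose (r - 1) ≤ d * (k + d).choose (r - 1) :=
      Nat.mul_le_mul_left d h2
    have h4 : (d + 1) * (k + d).choose (r - 1) =
        d * (k + d).choose (r - 1) + (k + d).choose (r - 1) := by ring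
    rw [h4]
    omega

/-- For `d ≥ 1`, `d 2^r < k`, `r ≥ 3`: `k (C(k+d,r) - C(k,r)) ≤ 2^(r-1) d C(k,r)`. -/
theorem phi {r k d : ℕ} (hr : 3 ≤ r) (hd : 1 ≤ d) (h : d * 2 ^ r < k) :
    k * (k + d).choose r ≤ k * k.choose r + 2 ^ (r - 1) * d * k.choose r := by
  obtain ⟨q, rfl⟩ : ∃ q, k = q + 1 := ⟨k - 1, by omega⟩
  have h1 := choose_ratio hr hd (show d * 2 ^ r ≤ q by omega)
  have h2 := choose_add_le (r := r) (by omega) (q + 1) d
  have e1 : q + 1 + d - 1 = q + d := by omega
  rw [e1] at h2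
  have h3 : (q + 1) * q.choose (r - 1) = (q + 1).choose r * r := by
    have := Nat.add_one_mul_choose_eq q (r - 1)
    have e : r - 1 + 1 = r := by omega
    rw [e] at this
    exact this
  have h4 : r * ((q + 1) * (q + 1 + d).choose r) ≤
      r * ((q + 1) * (q + 1).choose r + 2 ^ (r - 1) * d * (q + 1).choose r) := by
    calc r * ((q + 1) * (q + 1 + d).choose r)
        ≤ r * ((q + 1) * ((q + 1).choose r + d * (q + d).choose (r - 1))) := by gcongr
      _ = r * ((q + 1) * (q + 1).choose r) + (q + 1) * d * (r * (q + d).choose (r - 1)) := by ring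
      _ ≤ r * ((q + 1) * (q + 1).choose r) +
            (q + 1) * d * (2 ^ (r - 1) * q.choose (r - 1)) := by gcongr
      _ = r * ((q + 1) * (q + 1).choose r) +
            2 ^ (r - 1) * d * ((q + 1) * q.choose (r - 1)) := by ring
      _ = r * ((q + 1) * (q + 1).choose r) +
            2 ^ (r - 1) * d * ((q + 1).choose r * r) := by rw [h3]
      _ = r * ((q + 1) * (q + 1).choose r + 2 ^ (r - 1) * d * (q + 1).choose r) := by ring
  exact Nat.le_of_mul_le_mul_left h4 (by omega)

/-- For `2 ≤ r ≤ b ≤ m` and `k ≤ 2r - 1`: `C(b,r) (2m-k) ≤ (2b-k) C(m,r)`. -/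
theorem low_ratio {r b k : ℕ} (hr : 2 ≤ r) (hb : r ≤ b) (hk : k ≤ 2 * r - 1) :
    ∀ m : ℕ, b ≤ m →
      (b.choose r : ℝ) * (2 * m - k) ≤ (2 * b - k) * (m.choose r : ℝ) := by
  intro m hm
  induction m, hm using Nat.le_induction with
  | base => linarith [mul_comm (b.choose r : ℝ) (2 * (b : ℝ) - k)]
  | succ m hm ih =>
    have h1 : (m.choose r : ℝ) * (m + 1) = ((m + 1).choose r : ℝ) * ((m : ℝ) + 1 - r) := by
      have := Nat.choose_mul_succ_eq m r
      have h2 : ((m + 1 - r : ℕ) : ℝ) = (m : ℝ) + 1 - r := by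
        rw [Nat.cast_sub (by omega)]; push_cast; ring
      rw [← h2]
      exact_mod_cast this
    have hr' : (2 : ℝ) ≤ r := by exact_mod_cast hr
    have hbr : (r : ℝ) ≤ b := by exact_mod_cast hb
    have hmb : (b : ℝ) ≤ m := by exact_mod_cast hm
    have hk' : (k : ℝ) ≤ 2 * r - 1 := by
      have : k + 1 ≤ 2 * r := by omega
      have : ((k : ℝ) + 1) ≤ 2 * r := by exact_mod_cast this
      linarith
    have hpos : (0 : ℝ) < (m : ℝ) + 1 - r := by linarith
    have hpos2 : (0 : ℝ) < 2 * (m : ℝ) - k := by linarith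
    have hF : (0 : ℝ) ≤ (b.choose r : ℝ) := by positivity
    -- key: (2m+2-k)(m+1-r) ≤ (m+1)(2m-k)
    have key : (2 * ((m : ℝ) + 1) - k) * ((m : ℝ) + 1 - r) ≤ ((m : ℝ) + 1) * (2 * m - k) := by
      nlinarith
    have h3 : (b.choose r : ℝ) * ((2 * ((m : ℝ) + 1) - k) * ((m : ℝ) + 1 - r)) ≤
        (b.choose r : ℝ) * (((m : ℝ) + 1) * (2 * m - k)) := mul_le_mul_of_nonneg_left key hF
    have h4 : ((m : ℝ) + 1) * ((b.choose r : ℝ) * (2 * m - k)) ≤
        ((m : ℝ) + 1) * ((2 * b - k) * (m.choose r : ℝ)) :=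
      mul_le_mul_of_nonneg_left ih (by positivity)
    have h5 : ((b.choose r : ℝ) * (2 * ((m : ℝ) + 1) - k)) * ((m : ℝ) + 1 - r) ≤
        ((2 * b - k) * ((m + 1).choose r : ℝ)) * ((m : ℝ) + 1 - r) := by
      calc ((b.choose r : ℝ) * (2 * ((m : ℝ) + 1) - k)) * ((m : ℝ) + 1 - r)
          = (b.choose r : ℝ) * ((2 * ((m : ℝ) + 1) - k) * ((m : ℝ) + 1 - r)) := by ring
        _ ≤ (b.choose r : ℝ) * (((m : ℝ) + 1) * (2 * m - k)) := h3
        _ = ((m : ℝ) + 1) * ((b.choose r : ℝ) * (2 * m - k)) := by ring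
        _ ≤ ((m : ℝ) + 1) * ((2 * b - k) * (m.choose r : ℝ)) := h4
        _ = (2 * b - k) * ((m.choose r : ℝ) * (m + 1)) := by ring
        _ = (2 * b - k) * (((m + 1).choose r : ℝ) * ((m : ℝ) + 1 - r)) := by rw [h1]
        _ = _ := by ring
    have h6 := le_of_mul_le_mul_right h5 hpos
    push_cast
    exact h6

end Pool.Agent.R76.Mader
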