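import Mathlib
import Pool.Agent.R76.Mader.Arith

/-!
# Arithmetic for the range `2r ≤ k ≤ 3r - 1`
-/

namespace Pool.Agent.R76.Mader

theorem choose_step_real {r m : ℕ} (h : r ≤ m) :
    (m.choose r : ℝ) * (m + 1) = ((m + 1).choose r : ℝ) * ((m : ℝ) + 1 - r) := by
  have := Nat.choose_mul_succ_eq m r
  have h2 : ((m + 1 - r : ℕ) : ℝ) = (m : ℝ) + 1 - r := by
    rw [Nat.cast_sub (by omega)]; push_cast; ring
  rw [← h2]
  exact_mod_cast this

theorem mono1 {r b : ℕ} (hr : 1 ≤ r) (hb : r ≤ b) :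
    ∀ m : ℕ, b ≤ m →
      (b.choose r : ℝ) * ((m : ℝ) + 1 - r) ≤ ((b : ℝ) + 1 - r) * (m.choose r : ℝ) := by
  intro m hm
  induction m, hm using Nat.le_induction with
  | base => linarith [mul_comm (b.choose r : ℝ) ((b : ℝ) + 1 - r)]
  | succ m hm ih =>
    have h1 := choose_step_real (r := r) (m := m) (by omega)
    have hr' : (1 : ℝ) ≤ r := by exact_mod_cast hr
    have hbr : (r : ℝ) ≤ b := by exact_mod_cast hb
    have hmb : (b : ℝ) ≤ m := by exact_mod_cast hm
    have hpos : (0 : ℝ) < (m : ℝ) + 1 - r := by linarith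
    have hF : (0 : ℝ) ≤ (b.choose r : ℝ) := by positivity
    have hFm : (0 : ℝ) ≤ (m.choose r : ℝ) := by positivity
    have h2 : ((m : ℝ) + 1 + 1 - r) * ((b.choose r : ℝ) * ((m : ℝ) + 1 - r)) ≤
        ((m : ℝ) + 1 + 1 - r) * (((b : ℝ) + 1 - r) * (m.choose r : ℝ)) :=
      mul_le_mul_of_nonneg_left ih (by linarith)
    have h3 : ((m : ℝ) + 1 + 1 - r) * (((b : ℝ) + 1 - r) * (m.choose r : ℝ)) ≤
        ((m : ℝ) + 1) * (((b : ℝ) + 1 - r) * (m.choose r : ℝ)) := by
      refine mul_le_mul_of_nonneg_right (by linarith) (mul_nonneg (by linarith) hFm)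
    have h5 : ((b.choose r : ℝ) * ((m : ℝ) + 1 + 1 - r)) * ((m : ℝ) + 1 - r) ≤
        (((b : ℝ) + 1 - r) * ((m + 1).choose r : ℝ)) * ((m : ℝ) + 1 - r) := by
      calc ((b.choose r : ℝ) * ((m : ℝ) + 1 + 1 - r)) * ((m : ℝ) + 1 - r)
          = ((m : ℝ) + 1 + 1 - r) * ((b.choose r : ℝ) * ((m : ℝ) + 1 - r)) := by ring
        _ ≤ ((m : ℝ) + 1) * (((b : ℝ) + 1 - r) * (m.choose r : ℝ)) := h2.trans h3
        _ = ((b : ℝ) + 1 - r) * ((m.choose r : ℝ) * (m + 1)) := by ring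
        _ = ((b : ℝ) + 1 - r) * (((m + 1).choose r : ℝ) * ((m : ℝ) + 1 - r)) := by rw [h1]
        _ = _ := by ring
    have h6 := le_of_mul_le_mul_right h5 hpos
    push_cast
    exact h6

theorem low_ratio' {r b k : ℕ} (hr : 1 ≤ r) (hb : r ≤ b) (hk : k < 2 * b)
    (hc : (r : ℝ) * k ≤ 2 * ((b : ℝ) + 1) * (r - 1)) :
    ∀ m : ℕ, b ≤ m →
      (b.choose r : ℝ) * (2 * m - k) ≤ (2 * b - k) * (m.choose r : ℝ) := by
  intro m hm
  induction m, hm using Nat.le_induction with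
  | base => linarith [mul_comm (b.choose r : ℝ) (2 * (b : ℝ) - k)]
  | succ m hm ih =>
    have h1 := choose_step_real (r := r) (m := m) (by omega)
    have hr' : (1 : ℝ) ≤ r := by exact_mod_cast hr
    have hbr : (r : ℝ) ≤ b := by exact_mod_cast hb
    have hmb : (b : ℝ) ≤ m := by exact_mod_cast hm
    have hk' : (k : ℝ) < 2 * b := by exact_mod_cast hk
    have hpos : (0 : ℝ) < (m : ℝ) + 1 - r := by linarith
    have hpos2 : (0 : ℝ) < 2 * (m : ℝ) - k := by linarith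
    have hF : (0 : ℝ) ≤ (b.choose r : ℝ) := by positivity
    have hc' : (r : ℝ) * k ≤ 2 * ((m : ℝ) + 1) * (r - 1) := by
      have : 2 * ((b : ℝ) + 1) * (r - 1) ≤ 2 * ((m : ℝ) + 1) * (r - 1) :=
        mul_le_mul_of_nonneg_right (by linarith) (by linarith)
      linarith
    have key : (2 * ((m : ℝ) + 1) - k) * ((m : ℝ) + 1 - r) ≤ ((m : ℝ) + 1) * (2 * m - k) := by
      nlinarith
    have h3 : (b.choose r : ℝ) * ((2 * ((m : ℝ) + 1) - k) * ((m : ℝ) + 1 - r)) ≤
        (b.choose r : ℝ) * (((m : ℝ) + 1) * (2 * m - k)) := mul_le_mul_of_nonneg_left key hF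
    have h4 : ((m : ℝ) + 1) * ((b.choose r : ℝ) * (2 * m - k)) ≤
        ((m : ℝ) + 1) * ((2 * b - k) * (m.choose r : ℝ)) :=
      mul_le_mul_of_nonneg_left ih (by positivity)
    have h5 : ((b.choose r : ℝ) * (2 * ((m : ℝ) + 1) - k)) * ((m : ℝ) + 1 - r) ≤
        ((2 * b - k) * ((m + 1).choose r : ℝ)) * ((m : ℝ) + 1 - r) := by
      calc ((b.choose r : ℝ) * (2 * ((m : ℝ) + 1) - k)) * ((m : ℝ) + 1 - r)
          = (b.choose r : ℝ) * ((2 * ((m : ℝ) + 1) - k) * ((m : ℝ) + 1 - r)) := by ring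
        _ ≤ (b.choose r : ℝ) * (((m : ℝ) + 1) * (2 * m - k)) := h3
        _ = ((m : ℝ) + 1) * ((b.choose r : ℝ) * (2 * m - k)) := by ring
        _ ≤ ((m : ℝ) + 1) * ((2 * b - k) * (m.choose r : ℝ)) := h4
        _ = (2 * b - k) * ((m.choose r : ℝ) * (m + 1)) := by ring
        _ = (2 * b - k) * (((m + 1).choose r : ℝ) * ((m : ℝ) + 1 - r)) := by rw [h1]
        _ = _ := by ring
    have h6 := le_of_mul_le_mul_right h5 hpos
    push_cast
    exact h6

theorem three_le_two_pow {r : ℕ} (hr : 3 ≤ r) : 3 * r - 1 ≤ 2 ^ r := by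
  induction r, hr using Nat.le_induction with
  | base => norm_num
  | succ r hr ih => rw [pow_succ]; omega

theorem five_le_two_pow {r : ℕ} (hr : 5 ≤ r) : 5 * r ≤ 2 ^ r := by
  induction r, hr using Nat.le_induction with
  | base => norm_num
  | succ r hr ih => rw [pow_succ]; omega

/-- `k C(m,r) ≤ C(k,r)` if `2m ≤ k ≤ 3r-1`. -/
theorem half_bound {r k m : ℕ} (hr : 3 ≤ r) (hk : k ≤ 3 * r - 1) (hm : 2 * m ≤ k) :
    k * m.choose r ≤ k.choose r := by
  have h1 := three_le_two_pow hr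
  calc k * m.choose r ≤ 2 ^ r * m.choose r := Nat.mul_le_mul_right _ (hk.trans h1)
    _ ≤ k.choose r := two_pow_choose_le r hm

theorem N5 {r k b : ℕ} (hr : 3 ≤ r) (hk : 2 * r ≤ k) (hb : r ≤ b) (hbk : b + 1 ≤ k) :
    (k : ℝ) * b.choose r ≤ ((b : ℝ) + 1 - r) * k.choose r := by
  obtain ⟨q, rfl⟩ : ∃ q, k = q + 1 := ⟨k - 1, by omega⟩
  have h1 := mono1 (r := r) (by omega) hb q (by omega)
  have h2 := choose_step_real (r := r) (m := q) (by omega)
  have hq : (r : ℝ) ≤ q := by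
    have : r ≤ q := by omega
    exact_mod_cast this
  have hpos : (0 : ℝ) < (q : ℝ) + 1 - r := by linarith
  have h3 : (((q + 1 : ℕ) : ℝ) * b.choose r) * ((q : ℝ) + 1 - r) ≤
      (((b : ℝ) + 1 - r) * (q + 1).choose r) * ((q : ℝ) + 1 - r) := by
    push_cast
    calc (((q : ℝ) + 1) * b.choose r) * ((q : ℝ) + 1 - r)
        = ((q : ℝ) + 1) * ((b.choose r : ℝ) * ((q : ℝ) + 1 - r)) := by ring
      _ ≤ ((q : ℝ) + 1) * (((b : ℝ) + 1 - r) * (q.choose r : ℝ)) :=
          mul_le_mul_of_nonneg_left h1 (by positivity)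
      _ = ((b : ℝ) + 1 - r) * ((q.choose r : ℝ) * (q + 1)) := by ring
      _ = ((b : ℝ) + 1 - r) * (((q + 1).choose r : ℝ) * ((q : ℝ) + 1 - r)) := by rw [h2]
      _ = _ := by ring
  exact le_of_mul_le_mul_right h3 hpos

theorem central_ge {r : ℕ} (hr : 3 ≤ r) : 5 * r ≤ (2 * r).choose r := by
  induction r, hr using Nat.le_induction with
  | base => decide
  | succ r hr ih =>
    have h1 : (2 * (r + 1)).choose (r + 1) = (2 * r + 1).choose r + (2 * r + 1).choose (r + 1) := by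
      have : 2 * (r + 1) = (2 * r + 1) + 1 := by ring
      rw [this, Nat.choose_succ_succ]
    have h2 : (2 * r).choose r ≤ (2 * r + 1).choose r := Nat.choose_le_choose _ (by omega)
    have h3 : (2 * r + 1).choose (r + 1) = (2 * r).choose r + (2 * r).choose (r + 1) :=
      Nat.choose_succ_succ _ _
    rw [h1, h3]
    omega

theorem N6 {r b : ℕ} (hr : 3 ≤ r) (hb : r ≤ b) (hb2 : b ≤ 2 * r) :
    ((3 * r - 1 : ℕ) : ℝ) * (1 + b.choose r) ≤
      ((b : ℝ) + 1 - r) * ((3 * r - 1).choose r : ℝ) := by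
  have h1 := mono1 (r := r) (by omega) hb (2 * r) hb2
  have hc := central_ge hr
  have hc' : (5 : ℝ) * r ≤ ((2 * r).choose r : ℝ) := by exact_mod_cast hc
  have h2 := choose_step_real (r := r) (m := 2 * r) (by omega)
  have h3 := choose_step_real (r := r) (m := 2 * r + 1) (by omega)
  have h4 : (2 * r + 1 + 1).choose r ≤ (3 * r - 1).choose r := Nat.choose_le_choose _ (by omega)
  have h4' : ((2 * r + 1 + 1).choose r : ℝ) ≤ ((3 * r - 1).choose r : ℝ) := by exact_mod_cast h4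
  have e1 : ((3 * r - 1 : ℕ) : ℝ) = 3 * r - 1 := by
    rw [Nat.cast_sub (by omega)]; push_cast; ring
  rw [e1]
  push_cast at h1 h2 h3
  have hx : (3 : ℝ) ≤ (r : ℝ) := by exact_mod_cast hr
  have hbr : (r : ℝ) ≤ (b : ℝ) := by exact_mod_cast hb
  set x : ℝ := (r : ℝ)
  set C0 : ℝ := ((2 * r).choose r : ℝ)
  set C1 : ℝ := ((2 * r + 1).choose r : ℝ)
  set C2 : ℝ := ((2 * r + 1 + 1).choose r : ℝ)
  set Fk : ℝ := ((3 * r - 1).choose r : ℝ)
  set Fb : ℝ := (b.choose r : ℝ)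
  set B : ℝ := (b : ℝ) + 1 - x
  have hB : (1 : ℝ) ≤ B := by
    show (1 : ℝ) ≤ (b : ℝ) + 1 - x
    linarith
  -- h1 : Fb * (2x+1-x) ≤ B * C0 ; h2 : C0*(2x+1) = C1*(2x+1-x); h3 : C1*(2x+1+1) = C2*(2x+1+1-x)
  have hx1 : (0 : ℝ) < x + 1 := by linarith
  have hx2 : (0 : ℝ) < x + 2 := by linarith
  have h5 : C2 * ((x + 2) * (x + 1)) = (2 * x + 2) * (2 * x + 1) * C0 := by
    calc C2 * ((x + 2) * (x + 1)) = (C2 * (2 * x + 1 + 1 - x)) * (x + 1) := by ring
      _ = (C1 * (2 * x + 1 + 1)) * (x + 1) := by rw [h3]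
      _ = (C1 * (2 * x + 1 - x)) * (2 * x + 2) := by ring
      _ = (C0 * (2 * x + 1)) * (2 * x + 2) := by rw [h2]
      _ = _ := by ring
  -- (3x-1)(x+1+C0) ≤ (x+1) Fk
  have h6 : (3 * x - 1) * (x + 1 + C0) ≤ (x + 1) * Fk := by
    have h7 : ((3 * x - 1) * (x + 1 + C0)) * (x + 2) ≤ ((x + 1) * C2) * (x + 2) := by
      have h8 : ((x + 1) * C2) * (x + 2) = (2 * x + 2) * (2 * x + 1) * C0 := by
        rw [← h5]; ring
      rw [h8]
      nlinarith [mul_nonneg (sub_nonneg.mpr hc') (by nlinarith : (0 : ℝ) ≤ x ^ 2 + x + 4)]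
    have h9 := le_of_mul_le_mul_right h7 hx2
    have h10 := mul_le_mul_of_nonneg_left h4' hx1.le
    linarith
  have h11 : ((3 * x - 1) * (1 + Fb)) * (x + 1) ≤ (B * Fk) * (x + 1) := by
    have h12 : (3 * x - 1) * (Fb * (x + 1)) ≤ (3 * x - 1) * (B * C0) := by
      refine mul_le_mul_of_nonneg_left ?_ (by linarith)
      have : Fb * (x + 1) = Fb * (2 * x + 1 - x) := by ring
      rw [this]; exact h1
    have h13 : (3 * x - 1) * (x + 1) ≤ B * ((3 * x - 1) * (x + 1)) := by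
      have : 0 ≤ (3 * x - 1) * (x + 1) := by nlinarith
      nlinarith
    have h14 : B * ((3 * x - 1) * (x + 1 + C0)) ≤ B * ((x + 1) * Fk) :=
      mul_le_mul_of_nonneg_left h6 (by linarith)
    nlinarith
  exact le_of_mul_le_mul_right h11 hx1

theorem N3 {r k b : ℕ} (hr : 3 ≤ r) (hk1 : 2 * r ≤ k) (hk2 : k ≤ 3 * r - 1) (hb : r ≤ b)
    (hbk : b ≤ k) (h2b : k + 1 ≤ 2 * b) :
    (k : ℝ) * b.choose r ≤ (2 * (b : ℝ) - k) * k.choose r := by
  by_cases hc : (r : ℝ) * k ≤ 2 * ((b : ℝ) + 1) * (r - 1)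
  · have h1 := low_ratio' (r := r) (b := b) (k := k) (by omega) hb (by omega) hc k hbk
    have e : (b.choose r : ℝ) * (2 * k - k) = (k : ℝ) * b.choose r := by ring
    rw [e] at h1
    exact h1
  · push Not at hc
    have hr' : (3 : ℝ) ≤ r := by exact_mod_cast hr
    have hk2' : (k : ℝ) ≤ 3 * r - 1 := by
      have : k + 1 ≤ 3 * r := by omega
      have : (k : ℝ) + 1 ≤ 3 * r := by exact_mod_cast this
      linarith
    have hkb : 2 * b = k + 1 := by
      by_contra hne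
      have h1 : k + 2 ≤ 2 * b := by omega
      have h1' : (k : ℝ) + 2 ≤ 2 * b := by exact_mod_cast h1
      nlinarith
    have h2b' : 2 * (b : ℝ) = k + 1 := by exact_mod_cast hkb
    have hk3 : 3 * r - 2 ≤ k := by
      have h1 : (r : ℝ) * k > (k + 3) * (r - 1) := by
        have : 2 * ((b : ℝ) + 1) = k + 3 := by linarith
        rw [this] at hc
        exact hc
      have h2 : (3 : ℝ) * r - 3 < k := by nlinarith
      have h3 : (3 : ℝ) * r < k + 3 := by linarith
      have h4 : 3 * r < k + 3 := by exact_mod_cast h3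
      omega
    have e1 : 2 * (b : ℝ) - k = 1 := by linarith
    rw [e1, one_mul]
    rcases Nat.lt_or_ge r 5 with h5 | h5
    · have : r = 3 ∨ r = 4 := by omega
      rcases this with rfl | rfl
      · obtain ⟨rfl, rfl⟩ : k = 7 ∧ b = 4 := by omega
        have : 7 * Nat.choose 4 3 ≤ Nat.choose 7 3 := by decide
        exact_mod_cast this
      · obtain ⟨rfl, rfl⟩ : k = 11 ∧ b = 6 := by omega
        have : 11 * Nat.choose 6 4 ≤ Nat.choose 11 4 := by decide
        exact_mod_cast this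
    · have h6 := two_pow_choose_le r (m := b) (n := 2 * b) le_rfl
      rw [hkb] at h6
      have h7 : k.choose r * (k + 1) = (k + 1).choose r * (k + 1 - r) :=
        Nat.choose_mul_succ_eq k r
      have h8 := five_le_two_pow h5
      have h9 : k * (k + 1) ≤ 2 ^ r * (k + 1 - r) := by
        obtain ⟨w, hw⟩ : ∃ w, k + 1 = r + w := ⟨k + 1 - r, by omega⟩
        have e2 : k + 1 - r = w := by omega
        rw [e2]
        have hw1 : 2 * r ≤ w + 1 := by omega
        have hw2 : w ≤ 2 * r := by omega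
        have h10 : 5 * r * w ≤ 2 ^ r * w := Nat.mul_le_mul_right _ h8
        have h11 : k * (k + 1) ≤ 5 * r * w := by
          have hk' : k ≤ 3 * r - 1 := hk2
          obtain ⟨r', rfl⟩ : ∃ r', r = r' + 5 := ⟨r - 5, by omega⟩
          have : k * (k + 1) ≤ (3 * r' + 14) * (3 * r' + 15) := by
            apply Nat.mul_le_mul <;> omega
          have h12 : 2 * r' + 9 ≤ w := by omega
          have h13 : 5 * (r' + 5) * (2 * r' + 9) ≤ 5 * (r' + 5) * w := Nat.mul_le_mul_left _ h12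
          nlinarith
        exact h11.trans h10
      have h14 : (k + 1) * (k * b.choose r) ≤ (k + 1) * k.choose r := by
        calc (k + 1) * (k * b.choose r) = (k * (k + 1)) * b.choose r := by ring
          _ ≤ (2 ^ r * (k + 1 - r)) * b.choose r := Nat.mul_le_mul_right _ h9
          _ = (2 ^ r * b.choose r) * (k + 1 - r) := by ring
          _ ≤ (k + 1).choose r * (k + 1 - r) := Nat.mul_le_mul_right _ h6
          _ = (k + 1) * k.choose r := by rw [← h7]; ring
      have h15 := Nat.le_of_mul_le_mul_left h14 (by omega)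
      exact_mod_cast h15

theorem N1 {r c : ℕ} (hr : 3 ≤ r) (hc1 : 2 * r ≤ c) (hc2 : c ≤ 3 * r - 1) :
    (c / 2).choose r ≤ (c - 2).choose (r - 2) := by
  obtain ⟨s, rfl⟩ : ∃ s, r = s + 2 := ⟨r - 2, by omega⟩
  have e : s + 2 - 2 = s := by omega
  rw [e]
  set m := c / 2 with hm
  have hm1 : 2 * m ≤ c := by omega
  have h1 := Nat.choose_succ_right_eq m (s + 1)
  have h2 := Nat.choose_succ_right_eq m s
  have h3 : m.choose (s + 1 + 1) * (s + 1 + 1) ≤ m.choose (s + 1) * (s + 1) := by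
    rw [h1]; exact Nat.mul_le_mul_left _ (by omega)
  have h4 : m.choose s * (m - s) ≤ m.choose s * (s + 1 + 1) :=
    Nat.mul_le_mul_left _ (by omega)
  have h5 : m.choose (s + 1 + 1) * (s + 1 + 1) ≤ m.choose s * (s + 1 + 1) := by
    rw [h2] at h3
    exact h3.trans h4
  have h6 := Nat.le_of_mul_le_mul_right h5 (by omega)
  exact h6.trans (Nat.choose_le_choose _ (by omega))

theorem N2 {r k a b : ℕ} (hr : 3 ≤ r) (hk1 : 2 * r ≤ k) (hk2 : k ≤ 3 * r - 1) (hba : b ≤ a)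
    (hak : a ≤ k) (hbk : b + 1 ≤ k) (hab : k + 1 ≤ a + b) :
    (k : ℝ) * (((a / 2).choose r : ℝ) + b.choose r) ≤ ((a : ℝ) + b - k) * k.choose r := by
  have hF : (0 : ℝ) ≤ (k.choose r : ℝ) := by positivity
  have hhalf : (k : ℝ) * ((a / 2).choose r : ℝ) ≤ k.choose r := by
    exact_mod_cast half_bound hr hk2 (show 2 * (a / 2) ≤ k by omega)
  have hab' : (1 : ℝ) ≤ (a : ℝ) + b - k := by
    have : (k : ℝ) + 1 ≤ a + b := by exact_mod_cast hab
    linarith
  rcases Nat.lt_or_ge b r with hb | hb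
  · rw [Nat.choose_eq_zero_of_lt hb]
    have : (k.choose r : ℝ) ≤ ((a : ℝ) + b - k) * k.choose r := by nlinarith
    push_cast
    linarith
  rcases Nat.lt_or_ge a (2 * r) with ha | ha
  · have h0 : (a / 2).choose r = 0 := Nat.choose_eq_zero_of_lt (by omega)
    rw [h0]
    rcases Nat.lt_or_ge k (2 * b) with h2b | h2b
    · have h1 := N3 hr hk1 hk2 hb (by omega) (by omega : k + 1 ≤ 2 * b)
      have h2 : (2 * (b : ℝ) - k) * k.choose r ≤ ((a : ℝ) + b - k) * k.choose r := by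
        refine mul_le_mul_of_nonneg_right ?_ hF
        have : (b : ℝ) ≤ a := by exact_mod_cast hba
        linarith
      push_cast
      linarith
    · have h1 : (k : ℝ) * (b.choose r : ℝ) ≤ k.choose r := by
        exact_mod_cast half_bound hr hk2 h2b
      have : (k.choose r : ℝ) ≤ ((a : ℝ) + b - k) * k.choose r := by nlinarith
      push_cast
      linarith
  · by_cases hex : a = 2 * r ∧ k = 3 * r - 1
    · obtain ⟨rfl, rfl⟩ := hex
      have h1 := N6 hr hb hba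
      have e1 : 2 * r / 2 = r := by omega
      rw [e1, Nat.choose_self]
      have e2 : ((2 * r : ℕ) : ℝ) + b - ((3 * r - 1 : ℕ) : ℝ) = (b : ℝ) + 1 - r := by
        rw [Nat.cast_sub (by omega)]; push_cast; ring
      rw [e2]
      push_cast at h1 ⊢
      exact h1
    · have h1 := N5 hr hk1 hb hbk
      have h2 : k + 2 ≤ a + r := by omega
      have h2' : (k : ℝ) + 2 ≤ a + r := by exact_mod_cast h2
      have h3 : (1 + ((b : ℝ) + 1 - r)) * k.choose r ≤ ((a : ℝ) + b - k) * k.choose r :=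
        mul_le_mul_of_nonneg_right (by linarith) hF
      rw [mul_add]
      linarith

end Pool.Agent.R76.Mader
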