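import Mathlib

/-!
# Hypergraphs without (k+1)-connected subgraphs: definitions
-/

namespace Pool.Agent.R76.Mader

/-- A finite hypergraph: a finite vertex set `V` and a finite set `E` of edges,
each edge being a subset of `V`. -/
structure HG (α : Type*) where
  /-- the vertices -/
  V : Finset α
  /-- the edges -/
  E : Finset (Finset α)
  /-- every edge consists of vertices -/
  sub : ∀ e ∈ E, e ⊆ V

variable {α : Type*} [DecidableEq α]

/-- `H` is `r`-uniform: every edge has exactly `r` elements. -/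
def HG.Uniform (H : HG α) (r : ℕ) : Prop := ∀ e ∈ H.E, e.card = r

/-- `H'` is a subgraph of `H`. -/
def HG.IsSub (H' H : HG α) : Prop := H'.V ⊆ H.V ∧ H'.E ⊆ H.E

/-- Deleting a vertex set `X`: remove `X` and every edge meeting `X`. -/
def HG.del (H : HG α) (X : Finset α) : HG α where
  V := H.V \ X
  E := H.E.filter (fun e => Disjoint e X)
  sub := by
    intro e he
    rw [Finset.mem_filter] at he
    intro x hx
    rw [Finset.mem_sdiff]
    exact ⟨H.sub e he.1 hx, fun h => (Finset.disjoint_left.mp he.2) hx h⟩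

/-- Two vertices lie in a common edge. -/
def HG.Adj (H : HG α) (x y : α) : Prop := ∃ e ∈ H.E, x ∈ e ∧ y ∈ e

/-- `H` is connected: any two vertices are joined by a finite sequence of vertices
in which consecutive ones lie in a common edge. -/
def HG.Conn (H : HG α) : Prop :=
  ∀ x ∈ H.V, ∀ y ∈ H.V, Relation.ReflTransGen H.Adj x y

/-- `H` is `(k+1)`-connected: it has at least `k+2` vertices and it stays connected after
deleting any `k` of its vertices. -/
def HG.SuccConn (H : HG α) (k : ℕ) : Prop :=
  k + 2 ≤ H.V.card ∧ ∀ X : Finset α, X ⊆ H.V → X.card = k → (H.del X).Conn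

/-- `H` has no `(k+1)`-connected subgraph. -/
def HG.NoSuccConn (H : HG α) (k : ℕ) : Prop :=
  ∀ H' : HG α, H'.IsSub H → ¬ H'.SuccConn k

/-! ### Separations -/

/-- `Sep E k S`: every subset of `S` with at least `k+2` elements splits as
`X ∪ A ∪ B` with `|X| = k`, `A`, `B` nonempty, and no member of `E` inside `A ∪ B` meeting
both `A` and `B`. -/
def Sep (E : Finset (Finset α)) (k : ℕ) (S : Finset α) : Prop :=
  ∀ S' : Finset α, S' ⊆ S → k + 2 ≤ S'.card →
    ∃ X A B : Finset α, X ∪ A ∪ B = S' ∧ Disjoint X A ∧ Disjoint X B ∧ Disjoint A B ∧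
      X.card = k ∧ A.Nonempty ∧ B.Nonempty ∧
      ∀ e ∈ E, e ⊆ A ∪ B → e ⊆ A ∨ e ⊆ B

theorem Sep.mono {E : Finset (Finset α)} {k : ℕ} {S T : Finset α} (h : Sep E k S)
    (hT : T ⊆ S) : Sep E k T :=
  fun S' hS' hc => h S' (hS'.trans hT) hc

theorem sep_of_noSuccConn (H : HG α) (k : ℕ) (h : H.NoSuccConn k) : Sep H.E k H.V := by
  classical
  intro S hS hc
  -- the induced subgraph on S
  let G : HG α := ⟨S, H.E.filter (fun e => e ⊆ S), by
    intro e he; exact (Finset.mem_filter.mp he).2⟩
  have hG : G.IsSub H := ⟨hS, Finset.filter_subset _ _⟩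
  have hn := h G hG
  unfold HG.SuccConn at hn
  push Not at hn
  obtain ⟨X, hXS, hXk, hX⟩ := hn hc
  unfold HG.Conn at hX
  push Not at hX
  obtain ⟨x, hx, y, hy, hxy⟩ := hX
  have hXS' : X ⊆ S := hXS
  have hx' : x ∈ S \ X := hx
  have hy' : y ∈ S \ X := hy
  let A : Finset α := (S \ X).filter (fun z => Relation.ReflTransGen (G.del X).Adj x z)
  let B : Finset α := (S \ X).filter (fun z => ¬ Relation.ReflTransGen (G.del X).Adj x z)
  have hAB : A ∪ B = S \ X := Finset.filter_union_filter_not_eq _ _
  have hdAB : Disjoint A B := Finset.disjoint_filter_filter_not _ _ _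
  have hA : A ⊆ S \ X := Finset.filter_subset _ _
  have hB : B ⊆ S \ X := Finset.filter_subset _ _
  refine ⟨X, A, B, ?_, ?_, ?_, hdAB, hXk, ?_, ?_, ?_⟩
  · rw [Finset.union_assoc, hAB]
    exact Finset.union_sdiff_of_subset hXS'
  · exact Finset.disjoint_left.mpr fun z hz hz' => (Finset.mem_sdiff.mp (hA hz')).2 hz
  · exact Finset.disjoint_left.mpr fun z hz hz' => (Finset.mem_sdiff.mp (hB hz')).2 hz
  · exact ⟨x, Finset.mem_filter.mpr ⟨hx', Relation.ReflTransGen.refl⟩⟩
  · exact ⟨y, Finset.mem_filter.mpr ⟨hy', hxy⟩⟩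
  · intro e he heAB
    by_contra hcon
    push Not at hcon
    obtain ⟨h1, h2⟩ := hcon
    obtain ⟨q, hqe, hqA⟩ := Finset.not_subset.mp h1
    obtain ⟨p, hpe, hpB⟩ := Finset.not_subset.mp h2
    have hpA : p ∈ A := by
      rcases Finset.mem_union.mp (heAB hpe) with h | h
      · exact h
      · exact absurd h hpB
    have hqB : q ∈ B := by
      rcases Finset.mem_union.mp (heAB hqe) with h | h
      · exact absurd h hqA
      · exact h
    have heS : e ⊆ S := by
      intro z hz
      have := heAB hz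
      rw [hAB] at this
      exact (Finset.mem_sdiff.mp this).1
    have hdis : Disjoint e X := by
      refine Finset.disjoint_left.mpr fun z hz hz' => ?_
      have := heAB hz
      rw [hAB] at this
      exact (Finset.mem_sdiff.mp this).2 hz'
    have hadj : (G.del X).Adj p q := by
      refine ⟨e, ?_, hpe, hqe⟩
      refine Finset.mem_filter.mpr ⟨?_, hdis⟩
      exact Finset.mem_filter.mpr ⟨he, heS⟩
    have h3 := (Finset.mem_filter.mp hpA).2
    have h4 := (Finset.mem_filter.mp hqB).2
    exact h4 (h3.tail hadj)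

end Pool.Agent.R76.Mader
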