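import Mathlib
import Pool.Agent.R76.Mader.Defs

/-!
# Counting missing sets
-/

namespace Pool.Agent.R76.Mader

variable {α : Type*} [DecidableEq α]

/-- The `r`-subsets of `S` that are not in `E` and not contained in `Y`. -/
def mis (E : Finset (Finset α)) (r : ℕ) (S Y : Finset α) : Finset (Finset α) :=
  (S.powersetCard r).filter (fun e => e ∉ E ∧ ¬ e ⊆ Y)

/-- The `r`-subsets of `A ∪ B` contained neither in `A` nor in `B`. -/
def cross (r : ℕ) (A B : Finset α) : Finset (Finset α) :=
  ((A ∪ B).powersetCard r).filter (fun e => ¬ e ⊆ A ∧ ¬ e ⊆ B)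

theorem card_cross {r : ℕ} (hr : 1 ≤ r) {A B : Finset α} (h : Disjoint A B) :
    (cross r A B).card + A.card.choose r + B.card.choose r = (A.card + B.card).choose r := by
  classical
  have h1 : (A ∪ B).powersetCard r =
      cross r A B ∪ (A.powersetCard r ∪ B.powersetCard r) := by
    ext e
    simp only [cross, Finset.mem_union, Finset.mem_filter, Finset.mem_powersetCard]
    constructor
    · rintro ⟨h1, h2⟩
      by_cases hA : e ⊆ A
      · exact Or.inr (Or.inl ⟨hA, h2⟩)
      · by_cases hB : e ⊆ B
        · exact Or.inr (Or.inr ⟨hB, h2⟩)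
        · exact Or.inl ⟨⟨h1, h2⟩, hA, hB⟩
    · rintro (⟨h, -⟩ | ⟨h1, h2⟩ | ⟨h1, h2⟩)
      · exact h
      · exact ⟨h1.trans Finset.subset_union_left, h2⟩
      · exact ⟨h1.trans Finset.subset_union_right, h2⟩
  have h2 : Disjoint (A.powersetCard r) (B.powersetCard r) := by
    refine Finset.disjoint_left.mpr fun e he he' => ?_
    rw [Finset.mem_powersetCard] at he he'
    have : e ⊆ (∅ : Finset α) := by
      rw [← Finset.disjoint_iff_inter_eq_empty.mp h]
      exact Finset.subset_inter he.1 he'.1
    have h0 : e = ∅ := Finset.subset_empty.mp this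
    rw [h0, Finset.card_empty] at he
    omega
  have h3 : Disjoint (cross r A B) (A.powersetCard r ∪ B.powersetCard r) := by
    refine Finset.disjoint_left.mpr fun e he he' => ?_
    rw [Finset.mem_union, Finset.mem_powersetCard, Finset.mem_powersetCard] at he'
    have := (Finset.mem_filter.mp he).2
    rcases he' with h | h
    · exact this.1 h.1
    · exact this.2 h.1
  have h4 := congrArg Finset.card h1
  rw [Finset.card_union_of_disjoint h3, Finset.card_union_of_disjoint h2,
    Finset.card_powersetCard, Finset.card_powersetCard, Finset.card_powersetCard,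
    Finset.card_union_of_disjoint h] at h4
  omega

theorem card_cross_filter (r : ℕ) (A B Y : Finset α) :
    ((cross r A B).filter (fun e => e ⊆ Y)).card = (cross r (A ∩ Y) (B ∩ Y)).card := by
  classical
  congr 1
  ext e
  simp only [cross, Finset.mem_filter, Finset.mem_powersetCard]
  constructor
  · rintro ⟨⟨⟨h1, h2⟩, h3, h4⟩, h5⟩
    refine ⟨⟨?_, h2⟩, ?_, ?_⟩
    · rw [← Finset.union_inter_distrib_right]
      exact Finset.subset_inter h1 h5
    · exact fun h => h3 (h.trans Finset.inter_subset_left)
    · exact fun h => h4 (h.trans Finset.inter_subset_left)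
  · rintro ⟨⟨h1, h2⟩, h3, h4⟩
    rw [← Finset.union_inter_distrib_right] at h1
    have h5 : e ⊆ Y := h1.trans Finset.inter_subset_right
    refine ⟨⟨⟨h1.trans Finset.inter_subset_left, h2⟩, ?_, ?_⟩, h5⟩
    · exact fun h => h3 (Finset.subset_inter h h5)
    · exact fun h => h4 (Finset.subset_inter h h5)

/-- First counting inequality (one side only, with a free set `Y`). -/
theorem count_one {E : Finset (Finset α)} {r : ℕ} {X A B Y : Finset α}
    (hXA : Disjoint X A) (hXB : Disjoint X B) (hAB : Disjoint A B)
    (hE : ∀ e ∈ E, e ⊆ A ∪ B → e ⊆ A ∨ e ⊆ B) :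
    (cross r A B).card + (mis E r (X ∪ A) Y).card ≤
      (mis E r (X ∪ A ∪ B) Y).card + (cross r (A ∩ Y) (B ∩ Y)).card := by
  classical
  have h1 : (cross r A B).card =
      ((cross r A B).filter (fun e => e ⊆ Y)).card +
        ((cross r A B).filter (fun e => ¬ e ⊆ Y)).card :=
    (Finset.card_filter_add_card_filter_not (fun e => e ⊆ Y)).symm
  rw [h1, card_cross_filter]
  have h2 : Disjoint ((cross r A B).filter (fun e => ¬ e ⊆ Y)) (mis E r (X ∪ A) Y) := by
    refine Finset.disjoint_left.mpr fun e he he' => ?_
    simp only [cross, mis, Finset.mem_filter, Finset.mem_powersetCard] at he he'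
    apply he.1.2.1
    intro z hz
    have hz1 := he.1.1.1 hz
    have hz2 := he'.1.1 hz
    rw [Finset.mem_union] at hz1 hz2
    rcases hz1 with h | h
    · exact h
    · rcases hz2 with h' | h'
      · exact absurd h (Finset.disjoint_left.mp hXB h')
      · exact h'
  have h3 : (cross r A B).filter (fun e => ¬ e ⊆ Y) ∪ mis E r (X ∪ A) Y ⊆
      mis E r (X ∪ A ∪ B) Y := by
    intro e he
    simp only [cross, mis, Finset.mem_union, Finset.mem_filter, Finset.mem_powersetCard] at he ⊢
    rcases he with ⟨⟨⟨h1, h2⟩, h3, h4⟩, h5⟩ | ⟨⟨h1, h2⟩, h3, h4⟩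
    · refine ⟨⟨?_, h2⟩, ?_, h5⟩
      · intro z hz
        have := h1 hz
        rw [Finset.mem_union] at this
        rw [Finset.mem_union, Finset.mem_union]
        tauto
      · intro heE
        rcases hE e heE h1 with h | h
        · exact h3 h
        · exact h4 h
    · exact ⟨⟨h1.trans Finset.subset_union_left, h2⟩, h3, h4⟩
  have h4 := Finset.card_le_card h3
  rw [Finset.card_union_of_disjoint h2] at h4
  omega

/-- Second counting inequality (both sides). -/
theorem count_two {E : Finset (Finset α)} {r : ℕ} (hr : 1 ≤ r) {X A B : Finset α}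
    (hXA : Disjoint X A) (hXB : Disjoint X B) (hAB : Disjoint A B)
    (hE : ∀ e ∈ E, e ⊆ A ∪ B → e ⊆ A ∨ e ⊆ B) :
    (cross r A B).card + (mis E r (X ∪ A) ∅).card + (mis E r (X ∪ B) X).card ≤
      (mis E r (X ∪ A ∪ B) ∅).card := by
  classical
  have h2 : Disjoint (cross r A B) (mis E r (X ∪ A) ∅) := by
    refine Finset.disjoint_left.mpr fun e he he' => ?_
    simp only [cross, mis, Finset.mem_filter, Finset.mem_powersetCard] at he he'
    apply he.2.1
    intro z hz
    have hz1 := he.1.1 hz
    have hz2 := he'.1.1 hz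
    rw [Finset.mem_union] at hz1 hz2
    rcases hz1 with h | h
    · exact h
    · rcases hz2 with h' | h'
      · exact absurd h (Finset.disjoint_left.mp hXB h')
      · exact h'
  have h2' : Disjoint (cross r A B ∪ mis E r (X ∪ A) ∅) (mis E r (X ∪ B) X) := by
    refine Finset.disjoint_left.mpr fun e he he' => ?_
    rw [Finset.mem_union] at he
    simp only [cross, mis, Finset.mem_filter, Finset.mem_powersetCard] at he he'
    rcases he with he | he
    · apply he.2.2
      intro z hz
      have hz1 := he.1.1 hz
      have hz2 := he'.1.1 hz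
      rw [Finset.mem_union] at hz1 hz2
      rcases hz1 with h | h
      · rcases hz2 with h' | h'
        · exact absurd h (Finset.disjoint_left.mp hXA h')
        · exact absurd h' (Finset.disjoint_left.mp hAB h)
      · exact h
    · apply he'.2.2
      intro z hz
      have hz1 := he.1.1 hz
      have hz2 := he'.1.1 hz
      rw [Finset.mem_union] at hz1 hz2
      rcases hz1 with h | h
      · exact h
      · rcases hz2 with h' | h'
        · exact h'
        · exact absurd h' (Finset.disjoint_left.mp hAB h)
  have h3 : cross r A B ∪ mis E r (X ∪ A) ∅ ∪ mis E r (X ∪ B) X ⊆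
      mis E r (X ∪ A ∪ B) ∅ := by
    intro e he
    have hne : ∀ e : Finset α, e.card = r → ¬ e ⊆ ∅ := by
      intro e he h
      rw [Finset.subset_empty.mp h, Finset.card_empty] at he
      omega
    simp only [cross, mis, Finset.mem_union, Finset.mem_filter, Finset.mem_powersetCard] at he ⊢
    rcases he with (⟨⟨h1, h2⟩, h3, h4⟩ | ⟨⟨h1, h2⟩, h3, h4⟩) | ⟨⟨h1, h2⟩, h3, h4⟩
    · refine ⟨⟨?_, h2⟩, ?_, hne e h2⟩
      · intro z hz
        have := h1 hz
        rw [Finset.mem_union] at this
        rw [Finset.mem_union, Finset.mem_union]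
        tauto
      · intro heE
        rcases hE e heE h1 with h | h
        · exact h3 h
        · exact h4 h
    · exact ⟨⟨h1.trans Finset.subset_union_left, h2⟩, h3, h4⟩
    · refine ⟨⟨?_, h2⟩, h3, hne e h2⟩
      intro z hz
      have := h1 hz
      rw [Finset.mem_union] at this
      rw [Finset.mem_union, Finset.mem_union]
      tauto
  have h4 := Finset.card_le_card h3
  rw [Finset.card_union_of_disjoint h2', Finset.card_union_of_disjoint h2] at h4
  exact h4

/-- `M(X ∪ B) ≤ N(X ∪ B, X) + M(X)`, in fact with `M(X) ≤ C(|X|, r)`. -/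
theorem mis_empty_le (E : Finset (Finset α)) (r : ℕ) (S Y : Finset α) :
    (mis E r S ∅).card ≤ (mis E r S Y).card + Y.card.choose r := by
  classical
  have h : mis E r S ∅ ⊆ mis E r S Y ∪ Y.powersetCard r := by
    intro e he
    simp only [mis, Finset.mem_union, Finset.mem_filter, Finset.mem_powersetCard] at he ⊢
    by_cases hY : e ⊆ Y
    · exact Or.inr ⟨hY, he.1.2⟩
    · exact Or.inl ⟨he.1, he.2.1, hY⟩
  have h1 := (Finset.card_le_card h).trans (Finset.card_union_le _ _)
  rwa [Finset.card_powersetCard] at h1

/-- The number of edges is the number of `r`-sets minus the number of missing ones. -/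
theorem card_edges {r : ℕ} (hr : 1 ≤ r) (H : HG α) (hH : H.Uniform r) :
    H.E.card + (mis H.E r H.V ∅).card = H.V.card.choose r := by
  classical
  have h1 : H.V.powersetCard r = H.E ∪ mis H.E r H.V ∅ := by
    ext e
    simp only [mis, Finset.mem_union, Finset.mem_filter, Finset.mem_powersetCard]
    constructor
    · rintro ⟨h1, h2⟩
      by_cases he : e ∈ H.E
      · exact Or.inl he
      · refine Or.inr ⟨⟨h1, h2⟩, he, fun h => ?_⟩
        rw [Finset.subset_empty.mp h, Finset.card_empty] at h2
        omega
    · rintro (h | ⟨h, -⟩)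
      · exact ⟨H.sub e h, hH e h⟩
      · exact h
  have h2 : Disjoint H.E (mis H.E r H.V ∅) := by
    refine Finset.disjoint_left.mpr fun e he he' => ?_
    exact (Finset.mem_filter.mp he').2.1 he
  have h3 := congrArg Finset.card h1
  rw [Finset.card_union_of_disjoint h2, Finset.card_powersetCard] at h3
  exact h3.symm

end Pool.Agent.R76.Mader
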