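import Mathlib
import Pool.Agent.R76.Mader.Count
import Pool.Agent.R76.Mader.Arith

/-!
# The induction over separations
-/

namespace Pool.Agent.R76.Mader

variable {α : Type*} [DecidableEq α]

theorem cross_comm (r : ℕ) (A B : Finset α) : cross r B A = cross r A B := by
  unfold cross
  rw [Finset.union_comm]
  ext e
  simp only [Finset.mem_filter]
  tauto

/-- Two-sided form of the first counting inequality. -/
theorem host_free {E : Finset (Finset α)} {r k : ℕ} (hr : 2 ≤ r) :
    ∀ c : ℕ, ∀ S : Finset α, Sep E k S → S.card = k + c → ∀ Y : Finset α,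
      ((2 : ℤ) ^ (r - 1) - 1) * ((c.choose r : ℤ) - ((S ∩ Y).card.choose r : ℤ)) ≤
        2 ^ (r - 1) * ((mis E r S Y).card : ℤ) := by
  intro c
  induction c using Nat.strong_induction_on with
  | _ c ih =>
  intro S hS hcard Y
  have hL : (0 : ℤ) ≤ 2 ^ (r - 1) - 1 := by
    have : (1 : ℤ) ≤ 2 ^ (r - 1) := one_le_pow₀ (by norm_num)
    linarith
  have hP : (0 : ℤ) ≤ 2 ^ (r - 1) := by linarith
  rcases Nat.lt_or_ge c 2 with hc | hc
  · have h0 : c.choose r = 0 := Nat.choose_eq_zero_of_lt (by omega)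
    rw [h0]
    have h1 : (0 : ℤ) ≤ ((S ∩ Y).card.choose r : ℤ) := by positivity
    have h2 : (0 : ℤ) ≤ ((mis E r S Y).card : ℤ) := by positivity
    have h3 := mul_nonneg hP h2
    have h4 := mul_nonneg hL h1
    push_cast
    linarith
  obtain ⟨X, A, B, hU, hXA, hXB, hAB, hXk, hA, hB, hE⟩ := hS S (le_refl _) (by omega)
  have hXAB : Disjoint (X ∪ A) B := Finset.disjoint_union_left.mpr ⟨hXB, hAB⟩
  have hcU : (X ∪ A ∪ B).card = k + A.card + B.card := by
    rw [Finset.card_union_of_disjoint hXAB, Finset.card_union_of_disjoint hXA, hXk]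
  rw [hU] at hcU
  have hA1 : 1 ≤ A.card := hA.card_pos
  have hB1 : 1 ≤ B.card := hB.card_pos
  have hab : A.card + B.card = c := by omega
  have hTA : X ∪ A ⊆ S := by rw [← hU]; exact Finset.subset_union_left
  have hTB : X ∪ B ⊆ S := by
    rw [← hU]
    exact Finset.union_subset (Finset.subset_union_left.trans Finset.subset_union_left)
      Finset.subset_union_right
  -- cardinalities of traces on Y
  have hy0 : ((X ∪ A) ∩ Y).card = (X ∩ Y).card + (A ∩ Y).card := by
    rw [Finset.union_inter_distrib_right, Finset.card_union_of_disjoint]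
    exact hXA.mono Finset.inter_subset_left Finset.inter_subset_left
  have hy1 : ((X ∪ B) ∩ Y).card = (X ∩ Y).card + (B ∩ Y).card := by
    rw [Finset.union_inter_distrib_right, Finset.card_union_of_disjoint]
    exact hXB.mono Finset.inter_subset_left Finset.inter_subset_left
  have hy2 : (S ∩ Y).card = (X ∩ Y).card + (A ∩ Y).card + (B ∩ Y).card := by
    rw [← hU, Finset.union_inter_distrib_right, Finset.card_union_of_disjoint, hy0]
    exact hXAB.mono Finset.inter_subset_left Finset.inter_subset_left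
  have hdY : Disjoint (A ∩ Y) (B ∩ Y) := hAB.mono Finset.inter_subset_left Finset.inter_subset_left
  have hc1 := card_cross (r := r) (by omega) hAB
  have hc2 := card_cross (r := r) (by omega) hdY
  have n1 := count_one (r := r) (Y := Y) hXA hXB hAB hE
  have hE' : ∀ e ∈ E, e ⊆ B ∪ A → e ⊆ B ∨ e ⊆ A := by
    intro e he h
    rw [Finset.union_comm] at h
    exact (hE e he h).symm
  have n2 := count_one (r := r) (Y := Y) hXB hXA hAB.symm hE'
  have e1 : X ∪ B ∪ A = S := by
    rw [← hU, Finset.union_assoc, Finset.union_assoc, Finset.union_comm B A]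
  rw [hU] at n1
  rw [e1, cross_comm r A B, cross_comm r (A ∩ Y) (B ∩ Y)] at n2
  have i1 := ih A.card (by omega) (X ∪ A) (hS.mono hTA)
    (by rw [Finset.card_union_of_disjoint hXA, hXk]) Y
  have i2 := ih B.card (by omega) (X ∪ B) (hS.mono hTB)
    (by rw [Finset.card_union_of_disjoint hXB, hXk]) Y
  rw [hy0] at i1
  rw [hy1] at i2
  have hAY : (A ∩ Y).card ≤ A.card := Finset.card_le_card Finset.inter_subset_left
  have hBY : (B ∩ Y).card ≤ B.card := Finset.card_le_card Finset.inter_subset_left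
  have hcd := cross_diff (r := r) (by omega) (A ∩ Y).card (B ∩ Y).card _ A.card B.card rfl hAY hBY
  rw [hy2, ← hab]
  -- generalize
  set y0 := (X ∩ Y).card
  set y1 := (A ∩ Y).card
  set y2 := (B ∩ Y).card
  set a := A.card
  set b := B.card
  have s1 := choose_supermod (r := r) (by omega) y0 y1 y2
  have s2 := choose_supermod (r := r) (by omega) y0 y2 y1
  have e2 : y0 + y2 + y1 = y0 + y1 + y2 := by ring
  have e3 : y2 + y1 = y1 + y2 := by ring
  rw [e2, e3] at s2
  have s1' : ((y0 + y1).choose r : ℤ) + (y1 + y2).choose r ≤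
      (y0 + y1 + y2).choose r + y1.choose r := by exact_mod_cast s1
  have s2' : ((y0 + y2).choose r : ℤ) + (y1 + y2).choose r ≤
      (y0 + y1 + y2).choose r + y2.choose r := by exact_mod_cast s2
  have c1' : ((cross r A B).card : ℤ) + a.choose r + b.choose r = (a + b).choose r := by
    exact_mod_cast hc1
  have c2' : ((cross r (A ∩ Y) (B ∩ Y)).card : ℤ) + y1.choose r + y2.choose r =
      (y1 + y2).choose r := by exact_mod_cast hc2
  have n1' : ((cross r A B).card : ℤ) + (mis E r (X ∪ A) Y).card ≤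
      (mis E r S Y).card + (cross r (A ∩ Y) (B ∩ Y)).card := by exact_mod_cast n1
  have n2' : ((cross r A B).card : ℤ) + (mis E r (X ∪ B) Y).card ≤
      (mis E r S Y).card + (cross r (A ∩ Y) (B ∩ Y)).card := by exact_mod_cast n2
  rcases min_cases ((a.choose r : ℤ) - y1.choose r) ((b.choose r : ℤ) - y2.choose r) with
    ⟨h, _⟩ | ⟨h, _⟩
  · -- use B side
    rw [h] at hcd
    have t1 := mul_le_mul_of_nonneg_left s2' hL
    have t2 := mul_le_mul_of_nonneg_left n2' hP
    have t3 := congrArg (fun z : ℤ => (2 : ℤ) ^ (r - 1) * z) c1'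
    have t4 := congrArg (fun z : ℤ => (2 : ℤ) ^ (r - 1) * z) c2'
    generalize (2 : ℤ) ^ (r - 1) = P at *
    linarith
  · rw [h] at hcd
    have t1 := mul_le_mul_of_nonneg_left s1' hL
    have t2 := mul_le_mul_of_nonneg_left n1' hP
    have t3 := congrArg (fun z : ℤ => (2 : ℤ) ^ (r - 1) * z) c1'
    have t4 := congrArg (fun z : ℤ => (2 : ℤ) ^ (r - 1) * z) c2'
    generalize (2 : ℤ) ^ (r - 1) = P at *
    linarith

/-- The basic step, with the larger side first. -/
theorem step {E : Finset (Finset α)} {r k c : ℕ} (hr : 2 ≤ r) {S : Finset α}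
    (hS : Sep E k S) (hcard : S.card = k + c) (hc : 2 ≤ c) :
    ∃ (T₁ T₂ X : Finset α) (a b : ℕ), b ≤ a ∧ 1 ≤ b ∧ a + b = c ∧
      Sep E k T₁ ∧ Sep E k T₂ ∧ T₁.card = k + a ∧ T₂.card = k + b ∧ X.card = k ∧ X ⊆ T₂ ∧
      ((c.choose r : ℝ) - a.choose r - b.choose r) + (mis E r T₁ ∅).card +
          (mis E r T₂ X).card ≤ (mis E r S ∅).card ∧
      ((mis E r T₂ ∅).card : ℝ) ≤ (mis E r T₂ X).card + k.choose r := by
  obtain ⟨X, A, B, hU, hXA, hXB, hAB, hXk, hA, hB, hE⟩ := hS S (le_refl _) (by omega)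
  -- a symmetric auxiliary statement
  have key : ∀ A B : Finset α, X ∪ A ∪ B = S → Disjoint X A → Disjoint X B → Disjoint A B →
      A.Nonempty → B.Nonempty → (∀ e ∈ E, e ⊆ A ∪ B → e ⊆ A ∨ e ⊆ B) → B.card ≤ A.card →
      ∃ (T₁ T₂ X : Finset α) (a b : ℕ), b ≤ a ∧ 1 ≤ b ∧ a + b = c ∧
      Sep E k T₁ ∧ Sep E k T₂ ∧ T₁.card = k + a ∧ T₂.card = k + b ∧ X.card = k ∧ X ⊆ T₂ ∧
      ((c.choose r : ℝ) - a.choose r - b.choose r) + (mis E r T₁ ∅).card +
          (mis E r T₂ X).card ≤ (mis E r S ∅).card ∧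
      ((mis E r T₂ ∅).card : ℝ) ≤ (mis E r T₂ X).card + k.choose r := by
    intro A B hU hXA hXB hAB hA hB hE hle
    have hXAB : Disjoint (X ∪ A) B := Finset.disjoint_union_left.mpr ⟨hXB, hAB⟩
    have hcU : (X ∪ A ∪ B).card = k + A.card + B.card := by
      rw [Finset.card_union_of_disjoint hXAB, Finset.card_union_of_disjoint hXA, hXk]
    rw [hU] at hcU
    have hA1 : 1 ≤ A.card := hA.card_pos
    have hB1 : 1 ≤ B.card := hB.card_pos
    have hab : A.card + B.card = c := by omega
    have hTA : X ∪ A ⊆ S := by rw [← hU]; exact Finset.subset_union_left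
    have hTB : X ∪ B ⊆ S := by
      rw [← hU]
      exact Finset.union_subset (Finset.subset_union_left.trans Finset.subset_union_left)
        Finset.subset_union_right
    have hc1 := card_cross (r := r) (by omega) hAB
    have hc2 := count_two (r := r) (by omega) hXA hXB hAB hE
    have hc3 := mis_empty_le E r (X ∪ B) X
    rw [hU] at hc2
    rw [hab] at hc1
    rw [hXk] at hc3
    refine ⟨X ∪ A, X ∪ B, X, A.card, B.card, hle, hB1, hab, hS.mono hTA, hS.mono hTB, ?_, ?_,
      hXk, Finset.subset_union_left, ?_, ?_⟩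
    · rw [Finset.card_union_of_disjoint hXA, hXk]
    · rw [Finset.card_union_of_disjoint hXB, hXk]
    · have h1 : ((cross r A B).card : ℝ) + A.card.choose r + B.card.choose r = c.choose r := by
        exact_mod_cast hc1
      have h2 : ((cross r A B).card : ℝ) + (mis E r (X ∪ A) ∅).card + (mis E r (X ∪ B) X).card ≤
          (mis E r S ∅).card := by exact_mod_cast hc2
      linarith
    · exact_mod_cast hc3
  rcases le_total B.card A.card with h | h
  · exact key A B hU hXA hXB hAB hA hB hE h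
  · refine key B A ?_ hXB hXA hAB.symm hB hA ?_ h
    · rw [← hU, Finset.union_assoc, Finset.union_assoc, Finset.union_comm B A]
    · intro e he h
      rw [Finset.union_comm] at h
      exact (hE e he h).symm

/-- The saving of a set with `k + c` vertices, `c ≤ 2k`. -/
theorem saving_small {E : Finset (Finset α)} {r k : ℕ} (hr : 2 ≤ r) :
    ∀ c : ℕ, c ≤ 2 * k → ∀ S : Finset α, Sep E k S → S.card = k + c →
      ((2 : ℝ) ^ r - 1) * (k : ℝ) ^ r * ((c.choose r : ℝ) - (mis E r S ∅).card) ≤
        (c : ℝ) ^ r * k.choose r := by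
  intro c
  induction c using Nat.strong_induction_on with
  | _ c ih =>
  intro hck S hS hcard
  have hL : (0 : ℝ) ≤ 2 ^ r - 1 := by
    have : (1 : ℝ) ≤ 2 ^ r := one_le_pow₀ (by norm_num)
    linarith
  have hk : (0 : ℝ) ≤ (k : ℝ) ^ r := by positivity
  have hLk := mul_nonneg hL hk
  rcases Nat.lt_or_ge c 2 with hc | hc
  · have h0 : c.choose r = 0 := Nat.choose_eq_zero_of_lt (by omega)
    rw [h0]
    have h1 : (0 : ℝ) ≤ ((mis E r S ∅).card : ℝ) := by positivity
    have h2 : (0 : ℝ) ≤ (c : ℝ) ^ r * k.choose r := by positivity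
    have h3 := mul_nonneg hLk h1
    push_cast
    linarith
  obtain ⟨T₁, T₂, X, a, b, hba, hb1, hab, hT₁, hT₂, hc₁, hc₂, hXk, hXT, hcount, -⟩ :=
    step hr hS hcard hc
  have i1 := ih a (by omega) (by omega) T₁ hT₁ hc₁
  have hN : (0 : ℝ) ≤ ((mis E r T₂ X).card : ℝ) := by positivity
  have h1 : (b.choose r : ℝ) * (k : ℝ) ^ r ≤ (b : ℝ) ^ r * k.choose r := by
    exact_mod_cast choose_mul_pow_le r (show b ≤ k by omega)
  have h2 : ((c.choose r : ℝ) - (mis E r S ∅).card) ≤
      ((a.choose r : ℝ) - (mis E r T₁ ∅).card) + b.choose r := by linarith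
  have h3 := mul_le_mul_of_nonneg_left h2 hLk
  have h4 := mul_le_mul_of_nonneg_left h1 hL
  have h5 := pow_add_ge r (a := (a : ℝ)) (b := (b : ℝ)) (by positivity) (by exact_mod_cast hba)
  have h6 : (0 : ℝ) ≤ (k.choose r : ℝ) := by positivity
  have h7 := mul_le_mul_of_nonneg_right h5 h6
  have h8 : (c : ℝ) = a + b := by rw [← hab]; push_cast; ring
  rw [h8]
  nlinarith

end Pool.Agent.R76.Mader
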