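import Mathlib
import Pool.Agent.R76.Mader.Host
import Pool.Agent.R76.Mader.Arith2

/-!
# The two main inductions
-/

namespace Pool.Agent.R76.Mader

variable {α : Type*} [DecidableEq α]

theorem ratio_small {E : Finset (Finset α)} {r k c : ℕ} (hr : 2 ≤ r) (hk : 1 ≤ k)
    (hc : c ≤ 2 * k) {S : Finset α} (hS : Sep E k S) (hcard : S.card = k + c) :
    ((2 : ℝ) ^ r - 1) * ((c.choose r : ℝ) - (mis E r S ∅).card) ≤
      ((c : ℝ) / k) ^ r * k.choose r := by
  have h1 := saving_small (E := E) (k := k) hr c hc S hS hcard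
  have hk0 : (0 : ℝ) < (k : ℝ) := by exact_mod_cast hk
  have hkr : (0 : ℝ) < (k : ℝ) ^ r := by positivity
  have e1 : (c : ℝ) ^ r = ((c : ℝ) / k) ^ r * (k : ℝ) ^ r := by
    rw [← mul_pow, div_mul_cancel₀ _ hk0.ne']
  rw [e1] at h1
  have h2 : (((2 : ℝ) ^ r - 1) * ((c.choose r : ℝ) - (mis E r S ∅).card)) * (k : ℝ) ^ r ≤
      (((c : ℝ) / k) ^ r * k.choose r) * (k : ℝ) ^ r := by
    calc _ = ((2 : ℝ) ^ r - 1) * (k : ℝ) ^ r * ((c.choose r : ℝ) - (mis E r S ∅).card) := by ring
      _ ≤ _ := h1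
      _ = _ := by ring
  exact le_of_mul_le_mul_right h2 hkr

/-- The linear bound for all `c ≥ 2k`. -/
theorem saving_linear {E : Finset (Finset α)} {r k : ℕ} (hr : 3 ≤ r) (hk : 1 ≤ k) :
    ∀ c : ℕ, 2 * k ≤ c → ∀ S : Finset α, Sep E k S → S.card = k + c →
      2 * ((2 : ℝ) ^ r - 1) * (((c.choose r : ℝ) - (mis E r S ∅).card) + k.choose r) ≤
        (2 * ((2 : ℝ) ^ r - 1) + 1) * ((c : ℝ) / k) * k.choose r := by
  intro c
  induction c using Nat.strong_induction_on with
  | _ c ih =>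
  intro hck S hS hcard
  have hk0 : (0 : ℝ) < (k : ℝ) := by exact_mod_cast hk
  have hF : (0 : ℝ) ≤ (k.choose r : ℝ) := by positivity
  have hL7 : (7 : ℝ) ≤ 2 ^ r - 1 := by
    have : (2 : ℝ) ^ 3 ≤ 2 ^ r := pow_le_pow_right₀ (by norm_num) hr
    linarith
  obtain ⟨T₁, T₂, X, a, b, hba, hb1, hab, hT₁, hT₂, hc₁, hc₂, hXk, hXT, hcount, hMX⟩ :=
    step (by omega : 2 ≤ r) hS hcard (by omega)
  have hN : (0 : ℝ) ≤ ((mis E r T₂ X).card : ℝ) := by positivity
  have hcr : (c : ℝ) = a + b := by rw [← hab]; push_cast; ring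
  have hxc : (c : ℝ) / k = (a : ℝ) / k + (b : ℝ) / k := by rw [hcr]; ring
  have hx2 : 2 ≤ (c : ℝ) / k := by
    rw [le_div_iff₀ hk0]; exact_mod_cast hck
  -- the bound phi ≤ (b/k) F k in the two easy ranges
  have hphi : (b ≤ k ∨ (k < b ∧ (b - k) * 2 ^ r < k)) →
      (b.choose r : ℝ) - (mis E r T₂ X).card ≤ ((b : ℝ) / k) * k.choose r := by
    rintro (hb | ⟨hb, hb'⟩)
    · have h1 : (b.choose r : ℝ) * k ≤ b * k.choose r := by
        exact_mod_cast choose_mul_le (r := r) (by omega) hb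
      have h2 : (b.choose r : ℝ) ≤ ((b : ℝ) / k) * k.choose r := by
        rw [div_mul_eq_mul_div, le_div_iff₀ hk0]; exact h1
      linarith
    · obtain ⟨d, rfl⟩ : ∃ d, b = k + d := ⟨b - k, by omega⟩
      have e1 : k + d - k = d := by omega
      rw [e1] at hb'
      have h1 := phi hr (show 1 ≤ d by omega) hb'
      have h1' : (k : ℝ) * (k + d).choose r ≤ k * k.choose r + 2 ^ (r - 1) * d * k.choose r := by
        exact_mod_cast h1
      have h2 := host_free (by omega : 2 ≤ r) (k + d) T₂ hT₂ hc₂ X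
      rw [Finset.inter_eq_right.mpr hXT, hXk] at h2
      have h2' : ((2 : ℝ) ^ (r - 1) - 1) * (((k + d).choose r : ℝ) - (k.choose r : ℝ)) ≤
        2 ^ (r - 1) * ((mis E r T₂ X).card : ℝ) := by exact_mod_cast h2
      have hP : (0 : ℝ) < (2 : ℝ) ^ (r - 1) := by positivity
      have h3 : (((k + d).choose r : ℝ) - (mis E r T₂ X).card) ≤
          (((k + d : ℕ) : ℝ) / k) * k.choose r := by
        have e2 : (((k + d : ℕ) : ℝ) / k) * k.choose r =
            k.choose r + (d : ℝ) * k.choose r / k := by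
          push_cast
          field_simp
        rw [e2]
        -- multiply by P
        have h4 : (2 : ℝ) ^ (r - 1) * (((k + d).choose r : ℝ) - (mis E r T₂ X).card) ≤
            (2 : ℝ) ^ (r - 1) * k.choose r + (((k + d).choose r : ℝ) - k.choose r) := by
          linarith
        have h5 : (((k + d).choose r : ℝ) - k.choose r) ≤
            (2 : ℝ) ^ (r - 1) * ((d : ℝ) * k.choose r / k) := by
          rw [← mul_div_assoc, le_div_iff₀ hk0]
          linarith
        have h6 : (2 : ℝ) ^ (r - 1) * (((k + d).choose r : ℝ) - (mis E r T₂ X).card) ≤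
            (2 : ℝ) ^ (r - 1) * (k.choose r + (d : ℝ) * k.choose r / k) := by
          rw [mul_add]; linarith
        exact le_of_mul_le_mul_left h6 hP
      exact h3
  -- the secant bound
  have hsec : ∀ (m : ℕ) (T : Finset α), Sep E k T → T.card = k + m → k ≤ (m - k) * 2 ^ r →
      m ≤ 2 * k → 2 * ((2 : ℝ) ^ r - 1) * (((m.choose r : ℝ) - (mis E r T ∅).card) + k.choose r) ≤
        (2 * ((2 : ℝ) ^ r - 1) + 1) * ((m : ℝ) / k) * k.choose r := by
    intro m T hT hm h1 h2
    have h3 := ratio_small (by omega : 2 ≤ r) hk h2 hT hm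
    have hkm : k < m := by
      by_contra h
      have : m - k = 0 := by omega
      rw [this] at h1
      omega
    have h4 : 1 ≤ ((m : ℝ) / k - 1) * 2 ^ r := by
      have h5 : (k : ℝ) ≤ ((m : ℝ) - k) * 2 ^ r := by
        have : ((m - k : ℕ) : ℝ) = (m : ℝ) - k := by rw [Nat.cast_sub hkm.le]
        rw [← this]; exact_mod_cast h1
      have h6 : ((m : ℝ) / k - 1) * 2 ^ r = ((m : ℝ) - k) * 2 ^ r / k := by field_simp
      rw [h6, le_div_iff₀ hk0]; linarith
    have h5 : (m : ℝ) / k ≤ 2 := by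
      rw [div_le_iff₀ hk0]; exact_mod_cast h2
    have h6 := secant hr h4 h5
    have h7 := mul_le_mul_of_nonneg_right h6 hF
    linarith
  by_cases ha : 2 * k ≤ a
  · -- T₁ is large
    have i1 := ih a (by omega) ha T₁ hT₁ hc₁
    by_cases hb : 2 * k ≤ b
    · have i2 := ih b (by omega) hb T₂ hT₂ hc₂
      rw [hxc]
      have h1 : ((c.choose r : ℝ) - (mis E r S ∅).card) + k.choose r ≤
          (((a.choose r : ℝ) - (mis E r T₁ ∅).card) + k.choose r) +
          (((b.choose r : ℝ) - (mis E r T₂ ∅).card) + k.choose r) := by linarith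
      have h2 := mul_le_mul_of_nonneg_left h1 (show (0 : ℝ) ≤ 2 * ((2 : ℝ) ^ r - 1) by linarith)
      linarith
    · -- b < 2k
      by_cases hb2 : b ≤ k ∨ (k < b ∧ (b - k) * 2 ^ r < k)
      · have h1 := hphi hb2
        have h2 : ((c.choose r : ℝ) - (mis E r S ∅).card) + k.choose r ≤
          (((a.choose r : ℝ) - (mis E r T₁ ∅).card) + k.choose r) +
            ((b : ℝ) / k) * k.choose r := by linarith
        have h3 := mul_le_mul_of_nonneg_left h2 (show (0 : ℝ) ≤ 2 * ((2 : ℝ) ^ r - 1) by linarith)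
        have h4 : 0 ≤ ((b : ℝ) / k) * k.choose r := by positivity
        rw [hxc]
        linarith
      · push Not at hb2
        obtain ⟨hb3, hb4⟩ := hb2
        have i2 := hsec b T₂ hT₂ hc₂ (hb4 hb3) (by omega)
        rw [hxc]
        have h1 : ((c.choose r : ℝ) - (mis E r S ∅).card) + k.choose r ≤
          (((a.choose r : ℝ) - (mis E r T₁ ∅).card) + k.choose r) +
          (((b.choose r : ℝ) - (mis E r T₂ ∅).card) + k.choose r) := by linarith
        have h2 := mul_le_mul_of_nonneg_left h1 (show (0 : ℝ) ≤ 2 * ((2 : ℝ) ^ r - 1) by linarith)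
        linarith
  · -- a < 2k
    by_cases hb2 : b ≤ k ∨ (k < b ∧ (b - k) * 2 ^ r < k)
    · have h1 := hphi hb2
      have h2 := ratio_small (by omega : 2 ≤ r) hk (by omega : a ≤ 2 * k) hT₁ hc₁
      have hxa1 : 1 ≤ (a : ℝ) / k := by
        rw [le_div_iff₀ hk0]
        have : k ≤ a := by omega
        have : (k : ℝ) ≤ a := by exact_mod_cast this
        linarith
      have hxa2 : (a : ℝ) / k ≤ 2 := by
        rw [div_le_iff₀ hk0]
        have : a ≤ 2 * k := by omega
        exact_mod_cast this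
      have h3 := chord r hxa1 hxa2
      have h4 : ((a : ℝ) / k) ^ r * k.choose r ≤
          (1 + ((2 : ℝ) ^ r - 1) * ((a : ℝ) / k - 1)) * k.choose r :=
        mul_le_mul_of_nonneg_right (by linarith) hF
      -- L * Sav(S) ≤ (1 + L (x_a - 1)) F + L x_b F
      have h5 : ((c.choose r : ℝ) - (mis E r S ∅).card) ≤
          ((a.choose r : ℝ) - (mis E r T₁ ∅).card) + ((b : ℝ) / k) * k.choose r := by linarith
      have h6 := mul_le_mul_of_nonneg_left h5 (show (0 : ℝ) ≤ 2 * ((2 : ℝ) ^ r - 1) by linarith)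
      have h7 : 2 * (k.choose r : ℝ) ≤ ((c : ℝ) / k) * k.choose r :=
        mul_le_mul_of_nonneg_right hx2 hF
      rw [hxc] at h7 ⊢
      nlinarith
    · push Not at hb2
      obtain ⟨hb3, hb4⟩ := hb2
      have i2 := hsec b T₂ hT₂ hc₂ (hb4 hb3) (by omega)
      have h8 : k ≤ (a - k) * 2 ^ r := by
        have : (b - k) * 2 ^ r ≤ (a - k) * 2 ^ r := Nat.mul_le_mul_right _ (by omega)
        exact (hb4 hb3).trans this
      have i1 := hsec a T₁ hT₁ hc₁ h8 (by omega)
      rw [hxc]
      have h1 : ((c.choose r : ℝ) - (mis E r S ∅).card) + k.choose r ≤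
          (((a.choose r : ℝ) - (mis E r T₁ ∅).card) + k.choose r) +
          (((b.choose r : ℝ) - (mis E r T₂ ∅).card) + k.choose r) := by linarith
      have h2 := mul_le_mul_of_nonneg_left h1 (show (0 : ℝ) ≤ 2 * ((2 : ℝ) ^ r - 1) by linarith)
      linarith

/-- The exact bound for `r ≤ k ≤ 2r-1`. -/
theorem saving_exact {E : Finset (Finset α)} {r k : ℕ} (hr : 2 ≤ r) (hrk : r ≤ k)
    (hk : k ≤ 2 * r - 1) :
    ∀ c : ℕ, ∀ S : Finset α, Sep E k S → S.card = k + c →
      (c ≤ k → (c.choose r : ℝ) ≤ (mis E r S ∅).card) ∧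
      (k ≤ c → (k : ℝ) * ((c.choose r : ℝ) - (mis E r S ∅).card) ≤
        ((c : ℝ) - k) * k.choose r) := by
  intro c
  induction c using Nat.strong_induction_on with
  | _ c ih =>
  intro S hS hcard
  have hk0 : (0 : ℝ) < (k : ℝ) := by
    have : 0 < k := by omega
    exact_mod_cast this
  have hF : (0 : ℝ) ≤ (k.choose r : ℝ) := by positivity
  rcases Nat.lt_or_ge c 2 with hc | hc
  · have h0 : c.choose r = 0 := Nat.choose_eq_zero_of_lt (by omega)
    rw [h0]
    refine ⟨fun _ => by push_cast; positivity, fun hkc => ?_⟩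
    exfalso; omega
  obtain ⟨T₁, T₂, X, a, b, hba, hb1, hab, hT₁, hT₂, hc₁, hc₂, hXk, hXT, hcount, hMX⟩ :=
    step hr hS hcard hc
  have hN : (0 : ℝ) ≤ ((mis E r T₂ X).card : ℝ) := by positivity
  obtain ⟨i1, j1⟩ := ih a (by omega) T₁ hT₁ hc₁
  obtain ⟨i2, j2⟩ := ih b (by omega) T₂ hT₂ hc₂
  have hcr : (c : ℝ) = a + b := by rw [← hab]; push_cast; ring
  -- the case c ≤ k
  have hsmall : c ≤ k → (c.choose r : ℝ) ≤ (mis E r S ∅).card := by
    intro hck
    have h1 := i1 (by omega)
    have h2 : b.choose r = 0 := Nat.choose_eq_zero_of_lt (by omega)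
    rw [h2] at hcount
    push_cast at hcount
    linarith
  refine ⟨hsmall, fun hkc => ?_⟩
  rcases Nat.eq_or_lt_of_le hkc with rfl | hkc'
  · have h1 := hsmall le_rfl
    have h2 : (k : ℝ) * ((k.choose r : ℝ) - (mis E r S ∅).card) ≤ 0 :=
      mul_nonpos_of_nonneg_of_nonpos hk0.le (by linarith)
    linarith
  rcases Nat.lt_or_ge a k with hak | hak
  · -- a < k
    have h1 := i1 hak.le
    have h2 : (c.choose r : ℝ) - (mis E r S ∅).card ≤ b.choose r := by linarith
    have h3 := mul_le_mul_of_nonneg_left h2 hk0.le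
    rcases Nat.lt_or_ge b r with hbr | hbr
    · have h4 : b.choose r = 0 := Nat.choose_eq_zero_of_lt hbr
      rw [h4] at h3
      have h5 : (0 : ℝ) ≤ ((c : ℝ) - k) * k.choose r := by
        refine mul_nonneg ?_ hF
        have : (k : ℝ) ≤ c := by exact_mod_cast hkc
        linarith
      push_cast at h3
      linarith
    · have h4 := low_ratio hr hbr hk k (by omega)
      have h5 : (2 * (b : ℝ) - k) * k.choose r ≤ ((c : ℝ) - k) * k.choose r := by
        refine mul_le_mul_of_nonneg_right ?_ hF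
        have : (b : ℝ) ≤ a := by exact_mod_cast hba
        linarith
      linarith
  · have h1 := j1 hak
    rcases Nat.lt_or_ge b k with hbk | hbk
    · have h2 : (b.choose r : ℝ) * k ≤ b * k.choose r := by
        exact_mod_cast choose_mul_le (r := r) (by omega) hbk.le
      have h3 : (c.choose r : ℝ) - (mis E r S ∅).card ≤
          ((a.choose r : ℝ) - (mis E r T₁ ∅).card) + b.choose r := by linarith
      have h4 := mul_le_mul_of_nonneg_left h3 hk0.le
      rw [hcr]
      linarith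
    · have h2 := j2 hbk
      have h3 : (c.choose r : ℝ) - (mis E r S ∅).card ≤
          ((a.choose r : ℝ) - (mis E r T₁ ∅).card) +
          ((b.choose r : ℝ) - (mis E r T₂ ∅).card) + k.choose r := by linarith
      have h4 := mul_le_mul_of_nonneg_left h3 hk0.le
      rw [hcr]
      linarith

end Pool.Agent.R76.Mader
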