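import Mathlib
import Pool.Agent.R76.Mader.Host
import Pool.Agent.R76.Mader.Arith3

/-!
# The induction for `2r ≤ k ≤ 3r - 1`
-/

namespace Pool.Agent.R76.Mader

variable {α : Type*} [DecidableEq α]

/-- For `c ≤ 2r - 1` there is no saving. -/
theorem no_saving {E : Finset (Finset α)} {r k : ℕ} (hr : 2 ≤ r) :
    ∀ c : ℕ, c ≤ 2 * r - 1 → ∀ S : Finset α, Sep E k S → S.card = k + c →
      (c.choose r : ℝ) ≤ (mis E r S ∅).card := by
  intro c
  induction c using Nat.strong_induction_on with
  | _ c ih =>
  intro hcr S hS hcard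
  rcases Nat.lt_or_ge c 2 with hc | hc
  · have h0 : c.choose r = 0 := Nat.choose_eq_zero_of_lt (by omega)
    rw [h0]; push_cast; positivity
  obtain ⟨T₁, T₂, X, a, b, hba, hb1, hab, hT₁, hT₂, hc₁, hc₂, hXk, hXT, hcount, hMX⟩ :=
    step hr hS hcard hc
  have hN : (0 : ℝ) ≤ ((mis E r T₂ X).card : ℝ) := by positivity
  have i1 := ih a (by omega) (by omega) T₁ hT₁ hc₁
  have h2 : b.choose r = 0 := Nat.choose_eq_zero_of_lt (by omega)
  rw [h2] at hcount
  push_cast at hcount
  linarith

/-- For `c ≤ 3r - 1` the saving is at most `C(⌊c/2⌋, r)`. -/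
theorem saving_half {E : Finset (Finset α)} {r k : ℕ} (hr : 2 ≤ r) :
    ∀ c : ℕ, c ≤ 3 * r - 1 → ∀ S : Finset α, Sep E k S → S.card = k + c →
      (c.choose r : ℝ) - (mis E r S ∅).card ≤ ((c / 2).choose r : ℝ) := by
  intro c
  induction c using Nat.strong_induction_on with
  | _ c ih =>
  intro hcr S hS hcard
  rcases Nat.lt_or_ge c 2 with hc | hc
  · have h0 : c.choose r = 0 := Nat.choose_eq_zero_of_lt (by omega)
    rw [h0]
    have h1 : (0 : ℝ) ≤ ((mis E r S ∅).card : ℝ) := by positivity
    have h2 : (0 : ℝ) ≤ ((c / 2).choose r : ℝ) := by positivity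
    push_cast
    linarith
  obtain ⟨T₁, T₂, X, a, b, hba, hb1, hab, hT₁, hT₂, hc₁, hc₂, hXk, hXT, hcount, hMX⟩ :=
    step hr hS hcard hc
  have hN : (0 : ℝ) ≤ ((mis E r T₂ X).card : ℝ) := by positivity
  rcases Nat.lt_or_ge a (2 * r) with ha | ha
  · have i1 := no_saving hr a (by omega) T₁ hT₁ hc₁
    have h2 : (b.choose r : ℝ) ≤ ((c / 2).choose r : ℝ) := by
      exact_mod_cast Nat.choose_le_choose r (show b ≤ c / 2 by omega)
    linarith
  · have i1 := ih a (by omega) (by omega) T₁ hT₁ hc₁
    have h2 : b.choose r = 0 := Nat.choose_eq_zero_of_lt (by omega)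
    have h3 : ((a / 2).choose r : ℝ) ≤ ((c / 2).choose r : ℝ) := by
      exact_mod_cast Nat.choose_le_choose r (show a / 2 ≤ c / 2 by omega)
    rw [h2] at hcount
    push_cast at hcount
    linarith

/-- `N(S', Y) ≤ N(S, Y)` for `S' ⊆ S`. -/
theorem mis_mono {E : Finset (Finset α)} {r : ℕ} {S' S : Finset α} (h : S' ⊆ S) (Y : Finset α) :
    (mis E r S' Y).card ≤ (mis E r S Y).card := by
  refine Finset.card_le_card fun e he => ?_
  simp only [mis, Finset.mem_filter, Finset.mem_powersetCard] at he ⊢
  exact ⟨⟨he.1.1.trans h, he.1.2⟩, he.2⟩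

/-- For `X ⊆ T`: `M(T) = N(T, X) + M(X)`. -/
theorem mis_split {E : Finset (Finset α)} {r : ℕ} (hr : 1 ≤ r) {X T : Finset α} (h : X ⊆ T) :
    (mis E r T ∅).card = (mis E r T X).card + (mis E r X ∅).card := by
  classical
  have h1 : mis E r T ∅ = mis E r T X ∪ mis E r X ∅ := by
    ext e
    simp only [mis, Finset.mem_union, Finset.mem_filter, Finset.mem_powersetCard]
    constructor
    · rintro ⟨⟨h1, h2⟩, h3, h4⟩
      by_cases hX : e ⊆ X
      · exact Or.inr ⟨⟨hX, h2⟩, h3, h4⟩
      · exact Or.inl ⟨⟨h1, h2⟩, h3, hX⟩
    · rintro (⟨⟨h1, h2⟩, h3, h4⟩ | ⟨⟨h1, h2⟩, h3, h4⟩)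
      · refine ⟨⟨h1, h2⟩, h3, fun h0 => h4 (h0.trans (Finset.empty_subset _))⟩
      · exact ⟨⟨h1.trans h, h2⟩, h3, h4⟩
  have h2 : Disjoint (mis E r T X) (mis E r X ∅) := by
    refine Finset.disjoint_left.mpr fun e he he' => ?_
    simp only [mis, Finset.mem_filter, Finset.mem_powersetCard] at he he'
    exact he.2.2 he'.1.1
  rw [h1, Finset.card_union_of_disjoint h2]

/-- Missing sets inside `X` are not inside `Y` if `X`, `Y` are disjoint. -/
theorem mis_disj {E : Finset (Finset α)} {r : ℕ} (hr : 1 ≤ r) {X Y : Finset α}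
    (h : X ∩ Y = ∅) : (mis E r X ∅).card ≤ (mis E r X Y).card := by
  refine Finset.card_le_card fun e he => ?_
  simp only [mis, Finset.mem_filter, Finset.mem_powersetCard] at he ⊢
  refine ⟨he.1, he.2.1, fun hY => ?_⟩
  have h1 : e ⊆ ∅ := by rw [← h]; exact Finset.subset_inter he.1.1 hY
  exact he.2.2 h1

/-- The joint inequality: `F c - M(S) ≤ N(S, Y)` whenever `|S ∩ Y| ≤ c ≤ 3r-1`. -/
theorem joint {E : Finset (Finset α)} {r k : ℕ} (hr : 3 ≤ r) :
    ∀ c : ℕ, c ≤ 3 * r - 1 → ∀ S : Finset α, Sep E k S → S.card = k + c → ∀ Y : Finset α,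
      (S ∩ Y).card ≤ c →
      (c.choose r : ℝ) - (mis E r S ∅).card ≤ ((mis E r S Y).card : ℝ) := by
  intro c
  induction c using Nat.strong_induction_on with
  | _ c ih =>
  intro hcr S hS hcard Y hY
  have hNS : (0 : ℝ) ≤ ((mis E r S Y).card : ℝ) := by positivity
  rcases Nat.lt_or_ge c (2 * r) with hc2 | hc2
  · have := no_saving (by omega : 2 ≤ r) c (by omega) S hS hcard
    linarith
  have hhalf := saving_half (by omega : 2 ≤ r) c hcr S hS hcard
  have hN1 := N1 hr hc2 hcr
  have hN1' : ((c / 2).choose r : ℝ) ≤ ((c - 2).choose (r - 2) : ℝ) := by exact_mod_cast hN1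
  obtain ⟨X, A, B, hU, hXA, hXB, hAB, hXk, hA, hB, hE⟩ := hS S (le_refl _) (by omega)
  -- symmetric auxiliary statement
  have key : ∀ A B : Finset α, X ∪ A ∪ B = S → Disjoint X A → Disjoint X B → Disjoint A B →
      A.Nonempty → B.Nonempty → (∀ e ∈ E, e ⊆ A ∪ B → e ⊆ A ∨ e ⊆ B) → B.card ≤ A.card →
      (c.choose r : ℝ) - (mis E r S ∅).card ≤ ((mis E r S Y).card : ℝ) := by
    intro A B hU hXA hXB hAB hA hB hE hle
    have hXAB : Disjoint (X ∪ A) B := Finset.disjoint_union_left.mpr ⟨hXB, hAB⟩
    have hcU : (X ∪ A ∪ B).card = k + A.card + B.card := by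
      rw [Finset.card_union_of_disjoint hXAB, Finset.card_union_of_disjoint hXA, hXk]
    rw [hU] at hcU
    have hA1 : 1 ≤ A.card := hA.card_pos
    have hB1 : 1 ≤ B.card := hB.card_pos
    have hab : A.card + B.card = c := by omega
    have hTA : X ∪ A ⊆ S := by rw [← hU]; exact Finset.subset_union_left
    have hTB : X ∪ B ⊆ S := by
      rw [← hU]
      exact Finset.union_subset (Finset.subset_union_left.trans Finset.subset_union_left)
        Finset.subset_union_right
    have hXS : X ⊆ S := Finset.subset_union_left.trans hTA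
    have hy2 : (S ∩ Y).card = (X ∩ Y).card + (A ∩ Y).card + (B ∩ Y).card := by
      rw [← hU, Finset.union_inter_distrib_right, Finset.card_union_of_disjoint,
        Finset.union_inter_distrib_right, Finset.card_union_of_disjoint]
      · exact hXA.mono Finset.inter_subset_left Finset.inter_subset_left
      · exact hXAB.mono Finset.inter_subset_left Finset.inter_subset_left
    have hdY : Disjoint (A ∩ Y) (B ∩ Y) :=
      hAB.mono Finset.inter_subset_left Finset.inter_subset_left
    have hc1 := card_cross (r := r) (by omega) hAB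
    have hc2' := card_cross (r := r) (by omega) hdY
    have hAY : (A ∩ Y).card ≤ A.card := Finset.card_le_card Finset.inter_subset_left
    have hBY : (B ∩ Y).card ≤ B.card := Finset.card_le_card Finset.inter_subset_left
    have hcA : (X ∪ A).card = k + A.card := by
      rw [Finset.card_union_of_disjoint hXA, hXk]
    have hcB : (X ∪ B).card = k + B.card := by
      rw [Finset.card_union_of_disjoint hXB, hXk]
    by_cases hfull : (A ∩ Y).card = A.card ∧ (B ∩ Y).card = B.card
    · obtain ⟨hfA, hfB⟩ := hfull
      have hX0 : (X ∩ Y).card = 0 := by omega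
      have hXY : X ∩ Y = ∅ := Finset.card_eq_zero.mp hX0
      have hcount := count_two (r := r) (by omega) hXA hXB hAB hE
      rw [hU] at hcount
      have hcount' : ((cross r A B).card : ℝ) + (mis E r (X ∪ A) ∅).card +
          (mis E r (X ∪ B) X).card ≤ (mis E r S ∅).card := by exact_mod_cast hcount
      have hc1' : ((cross r A B).card : ℝ) + A.card.choose r + B.card.choose r = c.choose r := by
        rw [← hab]; exact_mod_cast hc1
      have hsp := mis_split (E := E) (r := r) (by omega) (X := X) (T := X ∪ B)
        Finset.subset_union_left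
      have hsp' : ((mis E r (X ∪ B) ∅).card : ℝ) =
          (mis E r (X ∪ B) X).card + (mis E r X ∅).card := by exact_mod_cast hsp
      rcases Nat.lt_or_ge A.card (2 * r) with ha | ha
      · have i1 := no_saving (by omega : 2 ≤ r) A.card (by omega) (X ∪ A) (hS.mono hTA) hcA
        have i2 := no_saving (by omega : 2 ≤ r) B.card (by omega) (X ∪ B) (hS.mono hTB) hcB
        have h1 := (mis_disj (E := E) (r := r) (by omega) hXY).trans
          (mis_mono (E := E) (r := r) hXS Y)
        have h1' : ((mis E r X ∅).card : ℝ) ≤ (mis E r S Y).card := by exact_mod_cast h1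
        linarith
      · have hb0 : B.card.choose r = 0 := Nat.choose_eq_zero_of_lt (by omega)
        have hYA : ((X ∪ A) ∩ Y).card ≤ A.card := by
          rw [Finset.union_inter_distrib_right, hXY, Finset.empty_union]
          exact hAY
        have i1 := ih A.card (by omega) (by omega) (X ∪ A) (hS.mono hTA) hcA Y hYA
        have h1 := mis_mono (E := E) (r := r) hTA Y
        have h1' : ((mis E r (X ∪ A) Y).card : ℝ) ≤ (mis E r S Y).card := by exact_mod_cast h1
        have hN : (0 : ℝ) ≤ ((mis E r (X ∪ B) X).card : ℝ) := by positivity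
        rw [hb0] at hc1'
        push_cast at hc1'
        linarith
    · -- some vertex of A ∪ B is outside Y
      have n1 := count_one (r := r) (Y := Y) hXA hXB hAB hE
      rw [hU] at n1
      have n1' : ((cross r A B).card : ℝ) ≤
          (mis E r S Y).card + (cross r (A ∩ Y) (B ∩ Y)).card := by
        have : (cross r A B).card ≤
          (mis E r S Y).card + (cross r (A ∩ Y) (B ∩ Y)).card := by omega
        exact_mod_cast this
      have c1' : ((cross r A B).card : ℝ) + A.card.choose r + B.card.choose r =
          (A.card + B.card).choose r := by exact_mod_cast hc1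
      have c2' : ((cross r (A ∩ Y) (B ∩ Y)).card : ℝ) + (A ∩ Y).card.choose r +
          (B ∩ Y).card.choose r = ((A ∩ Y).card + (B ∩ Y).card).choose r := by
        exact_mod_cast hc2'
      -- Δ ≥ C(c-2, r-2)
      have hD : ((c - 2).choose (r - 2) : ℝ) ≤ ((cross r A B).card : ℝ) -
          (cross r (A ∩ Y) (B ∩ Y)).card := by
        -- general monotonicity
        have hmono : ∀ y z a b : ℕ, y ≤ a → z ≤ b →
            (((y + z).choose r : ℝ) - y.choose r - z.choose r) ≤
              (((a + b).choose r : ℝ) - a.choose r - b.choose r) := by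
          intro y z a b hya hzb
          obtain ⟨p, rfl⟩ := Nat.exists_eq_add_of_le hya
          obtain ⟨q, rfl⟩ := Nat.exists_eq_add_of_le hzb
          have h1 := choose_supermod (r := r) (by omega) z y p
          have h2 := choose_supermod (r := r) (by omega) (y + p) z q
          have e1 : z + y = y + z := by ring
          have e2 : z + y + p = y + p + z := by ring
          have e3 : y + p + z + q = y + p + (z + q) := by ring
          rw [e1] at h1
          have e4 : y + z + p = y + p + z := by ring
          rw [e4] at h1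
          rw [e3] at h2
          have h1' : ((y + z).choose r : ℝ) + (y + p).choose r ≤
              (y + p + z).choose r + y.choose r := by exact_mod_cast h1
          have h2' : ((y + p + z).choose r : ℝ) + (z + q).choose r ≤
              (y + p + (z + q)).choose r + z.choose r := by exact_mod_cast h2
          linarith
        -- one step: C(a+b+1,r)-C(a+1,r)-C(b,r) - (C(a+b,r)-C(a,r)-C(b,r)) ≥ C(a+b-1, r-2)
        have hstep : ∀ a b : ℕ, 1 ≤ b → 1 ≤ a + b →
            ((a + b - 1).choose (r - 2) : ℝ) ≤
              (((a + 1 + b).choose r : ℝ) - (a + 1).choose r) -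
                (((a + b).choose r : ℝ) - a.choose r) := by
          intro a b hb hab
          have h1 := choose_succ_eq r (a + b) (by omega)
          have h2 := choose_succ_eq r a (by omega)
          have e1 : a + 1 + b = a + b + 1 := by ring
          rw [e1]
          have h1' : ((a + b + 1).choose r : ℝ) = (a + b).choose (r - 1) + (a + b).choose r := by
            exact_mod_cast h1
          have h2' : ((a + 1).choose r : ℝ) = a.choose (r - 1) + a.choose r := by
            exact_mod_cast h2
          rw [h1', h2']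
          obtain ⟨b', rfl⟩ : ∃ b', b = b' + 1 := ⟨b - 1, by omega⟩
          have h3 := choose_succ_eq (r - 1) (a + b') (by omega)
          have e2 : a + (b' + 1) = a + b' + 1 := by ring
          have e3 : a + b' + 1 - 1 = a + b' := by omega
          have e4 : r - 1 - 1 = r - 2 := by omega
          rw [e4] at h3
          rw [e2, e3]
          have h4 : a.choose (r - 1) ≤ (a + b').choose (r - 1) :=
            Nat.choose_le_choose _ (by omega)
          have h3' : ((a + b' + 1).choose (r - 1) : ℝ) =
              (a + b').choose (r - 2) + (a + b').choose (r - 1) := by exact_mod_cast h3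
          have h4' : (a.choose (r - 1) : ℝ) ≤ (a + b').choose (r - 1) := by exact_mod_cast h4
          rw [h3']
          linarith
        have hcase : (A ∩ Y).card < A.card ∨ (B ∩ Y).card < B.card := by
          by_contra hcon
          push Not at hcon
          exact hfull ⟨le_antisymm hAY hcon.1, le_antisymm hBY hcon.2⟩
        rcases hcase with hlt | hlt
        · obtain ⟨a', ha'⟩ : ∃ a', A.card = a' + 1 := ⟨A.card - 1, by omega⟩
          have m1 := hmono (A ∩ Y).card (B ∩ Y).card a' B.card (by omega) hBY
          have m2 := hstep a' B.card hB1 (by omega)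
          have e5 : a' + B.card - 1 = c - 2 := by omega
          rw [e5] at m2
          rw [ha'] at c1'
          linarith
        · obtain ⟨b', hb'⟩ : ∃ b', B.card = b' + 1 := ⟨B.card - 1, by omega⟩
          have m1 := hmono (A ∩ Y).card (B ∩ Y).card A.card b' hAY (by omega)
          have m2 := hstep b' A.card hA1 (by omega)
          have e5 : b' + A.card - 1 = c - 2 := by omega
          have e6 : b' + 1 + A.card = A.card + (b' + 1) := by ring
          have e7 : b' + A.card = A.card + b' := by ring
          rw [e5, e6, e7] at m2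
          rw [hb'] at c1'
          linarith
      linarith
  rcases le_total B.card A.card with h | h
  · exact key A B hU hXA hXB hAB hA hB hE h
  · refine key B A ?_ hXB hXA hAB.symm hB hA ?_ h
    · rw [← hU, Finset.union_assoc, Finset.union_assoc, Finset.union_comm B A]
    · intro e he h
      rw [Finset.union_comm] at h
      exact (hE e he h).symm

end Pool.Agent.R76.Mader
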