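import Mathlib
import Pool.Agent.R76.Mader.Main
import Pool.Agent.R76.Mader.Main3

/-!
# The exact bound for `r ≤ k ≤ 3r - 1`
-/

namespace Pool.Agent.R76.Mader

variable {α : Type*} [DecidableEq α]

/-- The basic step, with the larger side first, and `X` inside both sides. -/
theorem step2 {E : Finset (Finset α)} {r k c : ℕ} (hr : 2 ≤ r) {S : Finset α}
    (hS : Sep E k S) (hcard : S.card = k + c) (hc : 2 ≤ c) :
    ∃ (T₁ T₂ X : Finset α) (a b : ℕ), b ≤ a ∧ 1 ≤ b ∧ a + b = c ∧
      Sep E k T₁ ∧ Sep E k T₂ ∧ T₁.card = k + a ∧ T₂.card = k + b ∧ X.card = k ∧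
      X ⊆ T₁ ∧ X ⊆ T₂ ∧
      ((c.choose r : ℝ) - a.choose r - b.choose r) + (mis E r T₁ ∅).card +
          (mis E r T₂ X).card ≤ (mis E r S ∅).card := by
  obtain ⟨X, A, B, hU, hXA, hXB, hAB, hXk, hA, hB, hE⟩ := hS S (le_refl _) (by omega)
  have key : ∀ A B : Finset α, X ∪ A ∪ B = S → Disjoint X A → Disjoint X B → Disjoint A B →
      A.Nonempty → B.Nonempty → (∀ e ∈ E, e ⊆ A ∪ B → e ⊆ A ∨ e ⊆ B) → B.card ≤ A.card →
      ∃ (T₁ T₂ X : Finset α) (a b : ℕ), b ≤ a ∧ 1 ≤ b ∧ a + b = c ∧
      Sep E k T₁ ∧ Sep E k T₂ ∧ T₁.card = k + a ∧ T₂.card = k + b ∧ X.card = k ∧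
      X ⊆ T₁ ∧ X ⊆ T₂ ∧
      ((c.choose r : ℝ) - a.choose r - b.choose r) + (mis E r T₁ ∅).card +
          (mis E r T₂ X).card ≤ (mis E r S ∅).card := by
    intro A B hU hXA hXB hAB hA hB hE hle
    have hXAB : Disjoint (X ∪ A) B := Finset.disjoint_union_left.mpr ⟨hXB, hAB⟩
    have hcU : (X ∪ A ∪ B).card = k + A.card + B.card := by
      rw [Finset.card_union_of_disjoint hXAB, Finset.card_union_of_disjoint hXA, hXk]
    rw [hU] at hcU
    have hA1 : 1 ≤ A.card := hA.card_pos
    have hB1 : 1 ≤ B.card := hB.card_pos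
    have hab : A.card + B.card = c := by omega
    have hTA : X ∪ A ⊆ S := by rw [← hU]; exact Finset.subset_union_left
    have hTB : X ∪ B ⊆ S := by
      rw [← hU]
      exact Finset.union_subset (Finset.subset_union_left.trans Finset.subset_union_left)
        Finset.subset_union_right
    have hc1 := card_cross (r := r) (by omega) hAB
    have hc2 := count_two (r := r) (by omega) hXA hXB hAB hE
    rw [hU] at hc2
    rw [hab] at hc1
    refine ⟨X ∪ A, X ∪ B, X, A.card, B.card, hle, hB1, hab, hS.mono hTA, hS.mono hTB, ?_, ?_,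
      hXk, Finset.subset_union_left, Finset.subset_union_left, ?_⟩
    · rw [Finset.card_union_of_disjoint hXA, hXk]
    · rw [Finset.card_union_of_disjoint hXB, hXk]
    · have h1 : ((cross r A B).card : ℝ) + A.card.choose r + B.card.choose r = c.choose r := by
        exact_mod_cast hc1
      have h2 : ((cross r A B).card : ℝ) + (mis E r (X ∪ A) ∅).card + (mis E r (X ∪ B) X).card ≤
          (mis E r S ∅).card := by exact_mod_cast hc2
      linarith
  rcases le_total B.card A.card with h | h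
  · exact key A B hU hXA hXB hAB hA hB hE h
  · refine key B A ?_ hXB hXA hAB.symm hB hA ?_ h
    · rw [← hU, Finset.union_assoc, Finset.union_assoc, Finset.union_comm B A]
    · intro e he h
      rw [Finset.union_comm] at h
      exact (hE e he h).symm

/-- The exact bound for `2r ≤ k ≤ 3r-1`, `c ≥ k+1`. -/
theorem saving_exact3 {E : Finset (Finset α)} {r k : ℕ} (hr : 3 ≤ r) (hrk : 2 * r ≤ k)
    (hk : k ≤ 3 * r - 1) :
    ∀ c : ℕ, k + 1 ≤ c → ∀ S : Finset α, Sep E k S → S.card = k + c →
      (k : ℝ) * ((c.choose r : ℝ) - (mis E r S ∅).card) ≤ ((c : ℝ) - k) * k.choose r := by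
  intro c
  induction c using Nat.strong_induction_on with
  | _ c ih =>
  intro hkc S hS hcard
  have hk0 : (0 : ℝ) < (k : ℝ) := by
    have : 0 < k := by omega
    exact_mod_cast this
  have hF : (0 : ℝ) ≤ (k.choose r : ℝ) := by positivity
  obtain ⟨T₁, T₂, X, a, b, hba, hb1, hab, hT₁, hT₂, hc₁, hc₂, hXk, hXT₁, hXT₂, hcount⟩ :=
    step2 (by omega : 2 ≤ r) hS hcard (by omega)
  have hN : (0 : ℝ) ≤ ((mis E r T₂ X).card : ℝ) := by positivity
  have hcr : (c : ℝ) = a + b := by rw [← hab]; push_cast; ring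
  have hsp1 := mis_split (E := E) (r := r) (by omega) hXT₁
  have hsp2 := mis_split (E := E) (r := r) (by omega) hXT₂
  have hsp1' : ((mis E r T₁ ∅).card : ℝ) = (mis E r T₁ X).card + (mis E r X ∅).card := by
    exact_mod_cast hsp1
  have hsp2' : ((mis E r T₂ ∅).card : ℝ) = (mis E r T₂ X).card + (mis E r X ∅).card := by
    exact_mod_cast hsp2
  have hMX : ((mis E r X ∅).card : ℝ) ≤ k.choose r := by
    have h1 : (mis E r X ∅).card ≤ (X.powersetCard r).card :=
      Finset.card_le_card (Finset.filter_subset _ _)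
    rw [Finset.card_powersetCard, hXk] at h1
    exact_mod_cast h1
  rcases Nat.lt_or_ge k a with hak | hak
  · have j1 := ih a (by omega) (by omega) T₁ hT₁ hc₁
    rcases Nat.lt_or_ge k b with hbk | hbk
    · have j2 := ih b (by omega) (by omega) T₂ hT₂ hc₂
      have h3 : (c.choose r : ℝ) - (mis E r S ∅).card ≤
          ((a.choose r : ℝ) - (mis E r T₁ ∅).card) +
          ((b.choose r : ℝ) - (mis E r T₂ ∅).card) + k.choose r := by linarith
      have h4 := mul_le_mul_of_nonneg_left h3 hk0.le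
      rw [hcr]
      linarith
    · have h2 : (b.choose r : ℝ) * k ≤ b * k.choose r := by
        exact_mod_cast choose_mul_le (r := r) (by omega) hbk
      have h3 : (c.choose r : ℝ) - (mis E r S ∅).card ≤
          ((a.choose r : ℝ) - (mis E r T₁ ∅).card) + b.choose r := by linarith
      have h4 := mul_le_mul_of_nonneg_left h3 hk0.le
      rw [hcr]
      linarith
  · by_cases hbk : b + 1 ≤ k
    · have h1 := saving_half (by omega : 2 ≤ r) a (by omega) T₁ hT₁ hc₁
      have h2 := N2 hr hrk hk hba hak hbk (by omega)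
      have h3 : (c.choose r : ℝ) - (mis E r S ∅).card ≤
          ((a / 2).choose r : ℝ) + b.choose r := by linarith
      have h4 := mul_le_mul_of_nonneg_left h3 hk0.le
      rw [hcr]
      linarith
    · obtain ⟨rfl, rfl⟩ : a = k ∧ b = a := by omega
      have hi1 : (T₁ ∩ X).card ≤ b := by
        rw [Finset.inter_eq_right.mpr hXT₁, hXk]
      have hi2 : (T₂ ∩ X).card ≤ b := by
        rw [Finset.inter_eq_right.mpr hXT₂, hXk]
      have q1 := joint hr b hk T₁ hT₁ hc₁ X hi1
      have q2 := joint hr b hk T₂ hT₂ hc₂ X hi2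
      have h3 : (c.choose r : ℝ) - (mis E r S ∅).card ≤ b.choose r := by linarith
      have h4 := mul_le_mul_of_nonneg_left h3 hk0.le
      have h5 : (c : ℝ) - b = b := by rw [hcr]; ring
      rw [h5]
      exact h4

end Pool.Agent.R76.Mader
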