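import Mathlib
import Pool.Agent.R76.Mader.Count

/-!
# A construction beating the conjectured value for moderately many vertices
-/

namespace Pool.Agent.R76.Mader

open Finset

section general

variable {α : Type*} [DecidableEq α]

/-- Converse of `sep_of_noSuccConn`. -/
theorem noSuccConn_of_sep (H : HG α) (k : ℕ) (h : Sep H.E k H.V) : H.NoSuccConn k := by
  intro H' hsub hcon
  obtain ⟨X, A, B, hU, hXA, hXB, hAB, hXk, ⟨x, hx⟩, ⟨y, hy⟩, hE⟩ := h H'.V hsub.1 hcon.1
  have hXV : X ⊆ H'.V := by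
    rw [← hU]; exact subset_union_left.trans subset_union_left
  have hc := hcon.2 X hXV hXk
  have hxV : x ∈ H'.V \ X := by
    rw [mem_sdiff]
    refine ⟨?_, disjoint_right.mp hXA hx⟩
    rw [← hU]; simp [hx]
  have hyV : y ∈ H'.V \ X := by
    rw [mem_sdiff]
    refine ⟨?_, disjoint_right.mp hXB hy⟩
    rw [← hU]; simp [hy]
  have hxy := hc x hxV y hyV
  have inv : ∀ z, Relation.ReflTransGen (H'.del X).Adj x z → z ∈ A := by
    intro z hz
    induction hz with
    | refl => exact hx
    | tail _ hstep ih =>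
      obtain ⟨e, he, hu, hv⟩ := hstep
      have he' := mem_filter.mp he
      have hsubAB : e ⊆ A ∪ B := by
        intro w hw
        have h1 : w ∈ H'.V := H'.sub e he'.1 hw
        rw [← hU, mem_union, mem_union] at h1
        have h2 : w ∉ X := disjoint_left.mp he'.2 hw
        rw [mem_union]
        tauto
      rcases hE e (hsub.2 he'.1) hsubAB with h | h
      · exact h hv
      · exact absurd (h hu) (disjoint_left.mp hAB ih)
  exact disjoint_left.mp hAB (inv y hxy) hy

/-- Building a separation from a two-valued labelling. -/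
theorem sep_of_label {E : Finset (Finset α)} {k : ℕ} {S U : Finset α} (hS : k + 2 ≤ S.card)
    (hU : U ⊆ S) (hUk : U.card ≤ k) {x y : α} (hx : x ∈ S \ U) (hy : y ∈ S \ U)
    (P : α → Prop) [DecidablePred P] (hPx : P x) (hPy : ¬ P y)
    (hE : ∀ e ∈ E, e ⊆ S \ U → (∀ z ∈ e, P z) ∨ (∀ z ∈ e, ¬ P z)) :
    ∃ X A B : Finset α, X ∪ A ∪ B = S ∧ Disjoint X A ∧ Disjoint X B ∧ Disjoint A B ∧
      X.card = k ∧ A.Nonempty ∧ B.Nonempty ∧
      ∀ e ∈ E, e ⊆ A ∪ B → e ⊆ A ∨ e ⊆ B := by
  have hxy : x ≠ y := by rintro rfl; exact hPy hPx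
  rw [mem_sdiff] at hx hy
  have h1 : U ⊆ S \ {x, y} := by
    intro z hz
    rw [mem_sdiff, mem_insert, mem_singleton]
    refine ⟨hU hz, ?_⟩
    rintro (rfl | rfl)
    · exact hx.2 hz
    · exact hy.2 hz
  have h2 : (S \ {x, y}).card = S.card - 2 := by
    rw [card_sdiff_of_subset, card_pair hxy]
    intro z hz
    rw [mem_insert, mem_singleton] at hz
    rcases hz with rfl | rfl
    · exact hx.1
    · exact hy.1
  obtain ⟨X, hUX, hXS, hXk⟩ := exists_subsuperset_card_eq h1 hUk (by omega)
  have hXS' : X ⊆ S := hXS.trans sdiff_subset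
  have hxX : x ∉ X := fun h => by
    have := (mem_sdiff.mp (hXS h)).2
    simp at this
  have hyX : y ∉ X := fun h => by
    have := (mem_sdiff.mp (hXS h)).2
    simp at this
  have hun : (S \ X).filter P ∪ (S \ X).filter (fun z => ¬ P z) = S \ X :=
    filter_union_filter_not_eq _ _
  refine ⟨X, (S \ X).filter P, (S \ X).filter (fun z => ¬ P z), ?_, ?_, ?_,
    disjoint_filter_filter_not _ _ _, hXk, ⟨x, ?_⟩, ⟨y, ?_⟩, ?_⟩
  · rw [union_assoc, hun]
    exact union_sdiff_of_subset hXS'
  · exact disjoint_left.mpr fun z hz hz' => (mem_sdiff.mp (mem_filter.mp hz').1).2 hz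
  · exact disjoint_left.mpr fun z hz hz' => (mem_sdiff.mp (mem_filter.mp hz').1).2 hz
  · exact mem_filter.mpr ⟨mem_sdiff.mpr ⟨hx.1, hxX⟩, hPx⟩
  · exact mem_filter.mpr ⟨mem_sdiff.mpr ⟨hy.1, hyX⟩, hPy⟩
  · intro e he heAB
    rw [hun] at heAB
    have h3 : e ⊆ S \ U := heAB.trans (sdiff_subset_sdiff (Subset.refl _) hUX)
    rcases hE e he h3 with h | h
    · left
      exact fun z hz => mem_filter.mpr ⟨heAB hz, h z hz⟩
    · right
      exact fun z hz => mem_filter.mpr ⟨heAB hz, h z hz⟩

end general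

/-- The vertices: `(i, m)` is the `m`-th vertex of the class `V_i`, `0 ≤ i ≤ q`. -/
abbrev Vt (q k : ℕ) := Fin (q + 1) × Fin k

/-- The missing sets of the construction. -/
def Missing (q k r : ℕ) (e : Finset (Vt q k)) : Prop :=
  ((∀ x ∈ e, x.1 = 0) ∧ ¬ ∃ j : ℕ, ∀ x ∈ e, (x.2 : ℕ) / r = j) ∨
  ((∀ x ∈ e, x.1 ≠ 0) ∧ ¬ ∃ i, ∀ x ∈ e, x.1 = i) ∨
  (∃ i, i ≠ 0 ∧ ∀ x ∈ e, x.1 = i ∧ (x.2 : ℕ) < r)

open Classical in
/-- The hypergraph of the construction. -/
noncomputable def Hq (q k r : ℕ) : HG (Vt q k) where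
  V := univ
  E := (powersetCard r univ).filter (fun e => ¬ Missing q k r e)
  sub := fun _ _ => subset_univ _

theorem card_class_le {q k : ℕ} (S : Finset (Vt q k)) (i : Fin (q + 1))
    (hS : ∀ x ∈ S, x.1 = i) : S.card ≤ k := by
  have h1 : S.card ≤ (univ : Finset (Fin k)).card := by
    refine card_le_card_of_injOn (fun x => x.2) (fun _ _ => mem_univ _) ?_
    intro x hx y hy hxy
    exact Prod.ext ((hS x hx).trans (hS y hy).symm) hxy
  simpa using h1

theorem sep_Hq {q k r : ℕ} (hr : 1 ≤ r) (hk : r ≤ k) : Sep (Hq q k r).E k (Hq q k r).V := by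
  classical
  intro S _ hS
  have hEm : ∀ e ∈ (Hq q k r).E, ¬ Missing q k r e := fun e he => (mem_filter.mp he).2
  set U0 : Finset (Vt q k) := S.filter (fun x => x.1 = 0) with hU0
  have hU0k : U0.card ≤ k := card_class_le U0 0 fun x hx => (mem_filter.mp hx).2
  by_cases h1 : ∃ x ∈ S, ∃ y ∈ S, x.1 ≠ 0 ∧ y.1 ≠ 0 ∧ x.1 ≠ y.1
  · obtain ⟨x, hx, y, hy, hx0, hy0, hxy⟩ := h1
    refine sep_of_label (x := x) (y := y) hS (filter_subset _ _) hU0k ?_ ?_
      (fun z => z.1 = x.1) rfl (fun h => hxy h.symm) ?_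
    · exact mem_sdiff.mpr ⟨hx, fun h => hx0 (mem_filter.mp h).2⟩
    · exact mem_sdiff.mpr ⟨hy, fun h => hy0 (mem_filter.mp h).2⟩
    · intro e he heS
      have h0 : ∀ z ∈ e, z.1 ≠ 0 := by
        intro z hz h
        have := mem_sdiff.mp (heS hz)
        exact this.2 (mem_filter.mpr ⟨this.1, h⟩)
      have h2 : ∃ i, ∀ z ∈ e, z.1 = i := by
        by_contra hcon
        exact hEm e he (Or.inr (Or.inl ⟨h0, hcon⟩))
      obtain ⟨i, hi⟩ := h2
      by_cases hix : i = x.1
      · left; intro z hz; rw [hi z hz, hix]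
      · right; intro z hz; rw [hi z hz]; exact hix
  · push Not at h1
    -- there is a vertex outside the class 0
    obtain ⟨w, hw, hw0⟩ : ∃ w ∈ S, w.1 ≠ 0 := by
      by_contra hcon
      push Not at hcon
      have := card_class_le S 0 hcon
      omega
    have hall : ∀ z ∈ S, z.1 ≠ 0 → z.1 = w.1 := fun z hz hz0 => h1 z hz w hw hz0 hw0
    by_cases h2 : ∃ x ∈ S, ∃ y ∈ S, x.1 = 0 ∧ y.1 = 0 ∧ (x.2 : ℕ) / r ≠ (y.2 : ℕ) / r
    · obtain ⟨x, hx, y, hy, hx0, hy0, hxy⟩ := h2
      have hU1k : (S.filter (fun z => z.1 ≠ 0)).card ≤ k :=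
        card_class_le _ w.1 fun z hz => hall z (mem_filter.mp hz).1 (mem_filter.mp hz).2
      refine sep_of_label (x := x) (y := y) hS (filter_subset _ _) hU1k ?_ ?_
        (fun z => (z.2 : ℕ) / r = (x.2 : ℕ) / r) rfl (fun h => hxy h.symm) ?_
      · exact mem_sdiff.mpr ⟨hx, fun h => (mem_filter.mp h).2 hx0⟩
      · exact mem_sdiff.mpr ⟨hy, fun h => (mem_filter.mp h).2 hy0⟩
      · intro e he heS
        have h0 : ∀ z ∈ e, z.1 = 0 := by
          intro z hz
          by_contra h
          have := mem_sdiff.mp (heS hz)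
          exact this.2 (mem_filter.mpr ⟨this.1, h⟩)
        have h3 : ∃ j : ℕ, ∀ z ∈ e, (z.2 : ℕ) / r = j := by
          by_contra hcon
          exact hEm e he (Or.inl ⟨h0, hcon⟩)
        obtain ⟨j, hj⟩ := h3
        by_cases hjx : j = (x.2 : ℕ) / r
        · left; intro z hz; rw [hj z hz, hjx]
        · right; intro z hz; rw [hj z hz]; exact hjx
    · push Not at h2
      -- the class 0 part has at most r vertices
      have hU0r : U0.card ≤ r := by
        rcases U0.eq_empty_or_nonempty with h | ⟨x, hx⟩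
        · rw [h]; simp
        · have hx' := mem_filter.mp hx
          have h3 : U0.card ≤ (range r).card := by
            refine card_le_card_of_injOn (fun z => (z.2 : ℕ) % r) ?_ ?_
            · intro z _
              exact mem_coe.mpr (mem_range.mpr (Nat.mod_lt _ (by omega)))
            · intro z hz z' hz' hzz
              have hz1 := mem_filter.mp hz
              have hz1' := mem_filter.mp hz'
              have e1 := h2 z hz1.1 z' hz1'.1 hz1.2 hz1'.2
              have e2 : (z.2 : ℕ) = (z'.2 : ℕ) := by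
                rw [← Nat.div_add_mod (z.2 : ℕ) r, ← Nat.div_add_mod (z'.2 : ℕ) r, e1]
                simp only at hzz
                rw [hzz]
              exact Prod.ext (hz1.2.trans hz1'.2.symm) (Fin.ext e2)
          simpa using h3
      set D : Finset (Vt q k) := S.filter (fun z => z.1 ≠ 0 ∧ (z.2 : ℕ) < r) with hD
      have hUk : (S \ D).card ≤ k := by
        have h4 : S \ D ⊆ U0 ∪ S.filter (fun z => z.1 ≠ 0 ∧ r ≤ (z.2 : ℕ)) := by
          intro z hz
          rw [mem_sdiff] at hz
          rw [mem_union]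
          by_cases hz0 : z.1 = 0
          · exact Or.inl (mem_filter.mpr ⟨hz.1, hz0⟩)
          · refine Or.inr (mem_filter.mpr ⟨hz.1, hz0, ?_⟩)
            by_contra hcon
            exact hz.2 (mem_filter.mpr ⟨hz.1, hz0, by omega⟩)
        have h5 : (S.filter (fun z => z.1 ≠ 0 ∧ r ≤ (z.2 : ℕ))).card ≤ (range (k - r)).card := by
          refine card_le_card_of_injOn (fun z => (z.2 : ℕ) - r) ?_ ?_
          · intro z hz
            have hz' := mem_filter.mp hz
            have := z.2.isLt
            have h6 := hz'.2.2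
            refine mem_coe.mpr (mem_range.mpr ?_)
            show (z.2 : ℕ) - r < k - r
            omega
          · intro z hz z' hz' hzz
            have hz1 := mem_filter.mp hz
            have hz1' := mem_filter.mp hz'
            have h6 := hz1.2.2
            have h7 := hz1'.2.2
            have hzz' : (z.2 : ℕ) - r = (z'.2 : ℕ) - r := hzz
            refine Prod.ext ?_ (Fin.ext (by omega))
            rw [hall z hz1.1 hz1.2.1, hall z' hz1'.1 hz1'.2.1]
        have h6 := (card_le_card h4).trans (card_union_le _ _)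
        rw [card_range] at h5
        omega
      have hD2 : 1 < D.card := by
        have h7 : (S \ D).card + D.card = S.card := by
          rw [card_sdiff_add_card_eq_card (filter_subset _ _)]
        omega
      obtain ⟨x, hx, y, hy, hxy⟩ := one_lt_card.mp hD2
      have hxS := mem_filter.mp hx
      have hyS := mem_filter.mp hy
      refine sep_of_label (x := x) (y := y) hS sdiff_subset hUk ?_ ?_
        (fun z => z = x) rfl (fun h => hxy h.symm) ?_
      · exact mem_sdiff.mpr ⟨hxS.1, fun h => (mem_sdiff.mp h).2 hx⟩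
      · exact mem_sdiff.mpr ⟨hyS.1, fun h => (mem_sdiff.mp h).2 hy⟩
      · intro e he heS
        exfalso
        apply hEm e he
        refine Or.inr (Or.inr ⟨w.1, hw0, fun z hz => ?_⟩)
        have h8 := mem_sdiff.mp (heS hz)
        have h9 : z ∈ D := by
          by_contra hcon
          exact h8.2 (mem_sdiff.mpr ⟨h8.1, hcon⟩)
        have h10 := mem_filter.mp h9
        exact ⟨hall z h10.1 h10.2.1, h10.2.2⟩

end Pool.Agent.R76.Mader
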