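import Mathlib
import Pool.Agent.R76.Mader.Lower

/-!
# Counting the edges of the construction
-/

namespace Pool.Agent.R76.Mader

open Finset

theorem card_class (q k : ℕ) (i : Fin (q + 1)) :
    ((univ : Finset (Vt q k)).filter (fun x => x.1 = i)).card = k := by
  have h : (univ : Finset (Vt q k)).filter (fun x => x.1 = i) =
      (univ : Finset (Fin k)).image (fun m => ((i, m) : Vt q k)) := by
    ext ⟨a, b⟩
    simp only [mem_filter, mem_univ, true_and, mem_image, Prod.mk.injEq]
    constructor
    · rintro rfl; exact ⟨b, rfl, rfl⟩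
    · rintro ⟨m, h, _⟩; exact h.symm
  rw [h, card_image_of_injective _ (fun m m' hm => (Prod.mk.inj hm).2)]
  simp

theorem card_nonzero (q k : ℕ) :
    ((univ : Finset (Vt q k)).filter (fun x => x.1 ≠ 0)).card = q * k := by
  have h1 := card_filter_add_card_filter_not (s := (univ : Finset (Vt q k))) (fun x => x.1 = 0)
  rw [card_class] at h1
  have h2 : (univ : Finset (Vt q k)).card = (q + 1) * k := by simp [Vt]
  rw [h2] at h1
  have h3 : (q + 1) * k = k + q * k := by ring
  rw [h3] at h1
  have h4 : ((univ : Finset (Vt q k)).filter (fun x => ¬ x.1 = 0)).card = q * k := by omega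
  exact h4

theorem card_part {q k r j : ℕ} (hr : 1 ≤ r) (hj : j < k / r) :
    ((univ : Finset (Vt q k)).filter (fun x => x.1 = 0 ∧ (x.2 : ℕ) / r = j)).card = r := by
  have hjr : (j + 1) * r ≤ k := (Nat.mul_le_mul_right r hj).trans (Nat.div_mul_le_self k r)
  have h : ((univ : Finset (Vt q k)).filter (fun x => x.1 = 0 ∧ (x.2 : ℕ) / r = j)).card =
      (Ico (j * r) ((j + 1) * r)).card := by
    refine card_bij (fun x _ => (x.2 : ℕ)) ?_ ?_ ?_
    · intro x hx
      have hx' := (mem_filter.mp hx).2.2
      rw [mem_Ico]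
      have h1 := Nat.div_add_mod (x.2 : ℕ) r
      have h2 := Nat.mod_lt (x.2 : ℕ) (show 0 < r by omega)
      rw [hx'] at h1
      have e1 : r * j = j * r := Nat.mul_comm r j
      have e2 : (j + 1) * r = j * r + r := by ring
      rw [e1] at h1
      rw [e2]
      show j * r ≤ (x.2 : ℕ) ∧ (x.2 : ℕ) < j * r + r
      omega
    · intro x hx y hy hxy
      have hx' := (mem_filter.mp hx).2.1
      have hy' := (mem_filter.mp hy).2.1
      exact Prod.ext (hx'.trans hy'.symm) (Fin.ext hxy)
    · intro m hm
      rw [mem_Ico] at hm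
      refine ⟨((0 : Fin (q + 1)), (⟨m, by omega⟩ : Fin k)), ?_, rfl⟩
      rw [mem_filter]
      exact ⟨mem_univ _, rfl, Nat.div_eq_of_lt_le hm.1 hm.2⟩
  rw [h, Nat.card_Ico]
  have : (j + 1) * r = j * r + r := by ring
  omega

open Classical in
theorem card_M1 {q k r : ℕ} (hr : 1 ≤ r) :
    (((univ.filter (fun x : Vt q k => x.1 = 0)).powersetCard r).filter
      (fun e => ¬ ∃ j : ℕ, ∀ x ∈ e, (x.2 : ℕ) / r = j)).card + k / r ≤ k.choose r := by
  set P : ℕ → Finset (Vt q k) := fun j => univ.filter (fun x => x.1 = 0 ∧ (x.2 : ℕ) / r = j)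
    with hP
  have hinj : Set.InjOn P (range (k / r) : Finset ℕ) := by
    intro j hj j' hj' hjj
    have hj0 : j < k / r := mem_range.mp (mem_coe.mp hj)
    have h1 : (P j).card = r := card_part hr hj0
    obtain ⟨x, hx⟩ : (P j).Nonempty := by
      rw [← card_pos]; omega
    have hx' : x ∈ P j' := by rw [← hjj]; exact hx
    have h2 := (mem_filter.mp hx).2.2
    have h3 := (mem_filter.mp hx').2.2
    exact h2.symm.trans h3
  have himg : ((range (k / r)).image P).card = k / r := by
    rw [card_image_of_injOn hinj, card_range]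
  have hsub : ((univ.filter (fun x : Vt q k => x.1 = 0)).powersetCard r).filter
      (fun e => ¬ ∃ j : ℕ, ∀ x ∈ e, (x.2 : ℕ) / r = j) ∪ (range (k / r)).image P ⊆
      (univ.filter (fun x : Vt q k => x.1 = 0)).powersetCard r := by
    intro e he
    rcases mem_union.mp he with h | h
    · exact (mem_filter.mp h).1
    · obtain ⟨j, hj, rfl⟩ := mem_image.mp h
      rw [mem_powersetCard]
      refine ⟨fun x hx => ?_, card_part hr (mem_range.mp hj)⟩
      exact mem_filter.mpr ⟨mem_univ _, (mem_filter.mp hx).2.1⟩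
  have hdis : Disjoint (((univ.filter (fun x : Vt q k => x.1 = 0)).powersetCard r).filter
      (fun e => ¬ ∃ j : ℕ, ∀ x ∈ e, (x.2 : ℕ) / r = j)) ((range (k / r)).image P) := by
    refine disjoint_left.mpr fun e he he' => ?_
    obtain ⟨j, hj, rfl⟩ := mem_image.mp he'
    exact (mem_filter.mp he).2 ⟨j, fun x hx => (mem_filter.mp hx).2.2⟩
  have h1 := card_le_card hsub
  rw [card_union_of_disjoint hdis, himg, card_powersetCard, card_class] at h1
  exact h1

open Classical in
theorem card_M2 {q k r : ℕ} (hr : 1 ≤ r) :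
    (((univ.filter (fun x : Vt q k => x.1 ≠ 0)).powersetCard r).filter
      (fun e => ¬ ∃ i, ∀ x ∈ e, x.1 = i)).card + q * k.choose r ≤ (q * k).choose r := by
  set W : Fin (q + 1) → Finset (Finset (Vt q k)) :=
    fun i => (univ.filter (fun x => x.1 = i)).powersetCard r with hW
  have hdisj : ∀ i ∈ (univ.erase (0 : Fin (q + 1))), ∀ j ∈ (univ.erase (0 : Fin (q + 1))),
      i ≠ j → Disjoint (W i) (W j) := by
    intro i _ j _ hij
    refine disjoint_left.mpr fun e he he' => ?_
    obtain ⟨h1, h2⟩ := mem_powersetCard.mp he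
    obtain ⟨h3, _⟩ := mem_powersetCard.mp he'
    obtain ⟨x, hx⟩ : e.Nonempty := by rw [← card_pos]; omega
    exact hij ((mem_filter.mp (h1 hx)).2.symm.trans (mem_filter.mp (h3 hx)).2)
  have hbi : ((univ.erase (0 : Fin (q + 1))).biUnion W).card = q * k.choose r := by
    rw [card_biUnion hdisj]
    have : ∀ i ∈ (univ.erase (0 : Fin (q + 1))), (W i).card = k.choose r := by
      intro i _
      rw [hW]
      simp only
      rw [card_powersetCard, card_class]
    rw [sum_congr rfl this, sum_const, card_erase_of_mem (mem_univ _), card_univ,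
      Fintype.card_fin]
    simp
  have hsub : ((univ.filter (fun x : Vt q k => x.1 ≠ 0)).powersetCard r).filter
      (fun e => ¬ ∃ i, ∀ x ∈ e, x.1 = i) ∪ (univ.erase (0 : Fin (q + 1))).biUnion W ⊆
      (univ.filter (fun x : Vt q k => x.1 ≠ 0)).powersetCard r := by
    intro e he
    rcases mem_union.mp he with h | h
    · exact (mem_filter.mp h).1
    · obtain ⟨i, hi, hei⟩ := mem_biUnion.mp h
      obtain ⟨h1, h2⟩ := mem_powersetCard.mp hei
      rw [mem_powersetCard]
      refine ⟨fun x hx => ?_, h2⟩
      refine mem_filter.mpr ⟨mem_univ _, ?_⟩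
      rw [(mem_filter.mp (h1 hx)).2]
      exact (mem_erase.mp hi).1
  have hdis : Disjoint (((univ.filter (fun x : Vt q k => x.1 ≠ 0)).powersetCard r).filter
      (fun e => ¬ ∃ i, ∀ x ∈ e, x.1 = i)) ((univ.erase (0 : Fin (q + 1))).biUnion W) := by
    refine disjoint_left.mpr fun e he he' => ?_
    obtain ⟨i, hi, hei⟩ := mem_biUnion.mp he'
    obtain ⟨h1, h2⟩ := mem_powersetCard.mp hei
    exact (mem_filter.mp he).2 ⟨i, fun x hx => (mem_filter.mp (h1 hx)).2⟩
  have h1 := card_le_card hsub
  rw [card_union_of_disjoint hdis, hbi, card_powersetCard, card_nonzero] at h1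
  exact h1

open Classical in
theorem card_missing_le {q k r : ℕ} (hr : 1 ≤ r) :
    ((powersetCard r (univ : Finset (Vt q k))).filter (fun e => Missing q k r e)).card + k / r +
      q * k.choose r ≤ k.choose r + (q * k).choose r + q := by
  set M1 := ((univ.filter (fun x : Vt q k => x.1 = 0)).powersetCard r).filter
      (fun e => ¬ ∃ j : ℕ, ∀ x ∈ e, (x.2 : ℕ) / r = j) with hM1
  set M2 := ((univ.filter (fun x : Vt q k => x.1 ≠ 0)).powersetCard r).filter
      (fun e => ¬ ∃ i, ∀ x ∈ e, x.1 = i) with hM2
  set M3 := (univ.erase (0 : Fin (q + 1))).image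
      (fun i => (univ : Finset (Vt q k)).filter (fun x => x.1 = i ∧ (x.2 : ℕ) < r)) with hM3
  have h1 : M1.card + k / r ≤ k.choose r := card_M1 hr
  have h2 : M2.card + q * k.choose r ≤ (q * k).choose r := card_M2 hr
  have h3 : M3.card ≤ q := by
    refine card_image_le.trans ?_
    rw [card_erase_of_mem (mem_univ _), card_univ, Fintype.card_fin]
    simp
  have hsub : (powersetCard r (univ : Finset (Vt q k))).filter (fun e => Missing q k r e) ⊆
      M1 ∪ M2 ∪ M3 := by
    intro e he
    obtain ⟨he1, he2⟩ := mem_filter.mp he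
    have hec := (mem_powersetCard.mp he1).2
    rw [mem_union, mem_union]
    rcases he2 with ⟨h4, h5⟩ | ⟨h4, h5⟩ | ⟨i, hi, h4⟩
    · left; left
      refine mem_filter.mpr ⟨mem_powersetCard.mpr ⟨?_, hec⟩, h5⟩
      exact fun x hx => mem_filter.mpr ⟨mem_univ _, h4 x hx⟩
    · left; right
      refine mem_filter.mpr ⟨mem_powersetCard.mpr ⟨?_, hec⟩, h5⟩
      exact fun x hx => mem_filter.mpr ⟨mem_univ _, h4 x hx⟩
    · right
      refine mem_image.mpr ⟨i, mem_erase.mpr ⟨hi, mem_univ _⟩, ?_⟩
      symm
      refine eq_of_subset_of_card_le ?_ ?_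
      · exact fun x hx => mem_filter.mpr ⟨mem_univ _, h4 x hx⟩
      · rw [hec]
        have h5 : ((univ : Finset (Vt q k)).filter (fun x => x.1 = i ∧ (x.2 : ℕ) < r)).card ≤
            (range r).card := by
          refine card_le_card_of_injOn (fun x => (x.2 : ℕ)) ?_ ?_
          · intro x hx
            exact mem_coe.mpr (mem_range.mpr (mem_filter.mp hx).2.2)
          · intro x hx y hy hxy
            exact Prod.ext ((mem_filter.mp hx).2.1.trans (mem_filter.mp hy).2.1.symm)
              (Fin.ext hxy)
        simpa using h5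
  have h4 := card_le_card hsub
  have h5 := card_union_le (M1 ∪ M2) M3
  have h6 := card_union_le M1 M2
  omega

theorem card_Hq {q k r : ℕ} (hr : 1 ≤ r) :
    ((q + 1) * k).choose r + k / r + q * k.choose r ≤
      (Hq q k r).E.card + (k.choose r + (q * k).choose r + q) := by
  classical
  have h1 := card_filter_add_card_filter_not (s := powersetCard r (univ : Finset (Vt q k)))
    (fun e => Missing q k r e)
  have h2 : (powersetCard r (univ : Finset (Vt q k))).card = ((q + 1) * k).choose r := by
    rw [card_powersetCard]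
    congr 1
    simp [Vt]
  have h3 : (Hq q k r).E.card = ((powersetCard r (univ : Finset (Vt q k))).filter
      (fun e => ¬ Missing q k r e)).card := rfl
  have h4 := card_missing_le (q := q) (k := k) hr
  rw [h3]
  omega

end Pool.Agent.R76.Mader
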